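import Mathlib

/-!
# MP_dd2281_co: arithmetic of short vectors of the triangular lattice
-/

set_option autoImplicit false

namespace Pool.Agent.Lib.MP_dd2281_co

/-- The norm form. -/
def nf (x y : ℤ) : ℤ := x ^ 2 + x * y + y ^ 2

/-- The hexagonal length. -/
def hx (x y : ℤ) : ℤ := max (max |x| |y|) |x + y|

private theorem nf_bound {x y : ℤ} (h : nf x y ≤ 10) : |x| ≤ 3 ∧ |y| ≤ 3 := by
  unfold nf at h
  constructor
  · rw [abs_le]
    constructor <;> nlinarith [sq_nonneg (x + 2 * y), sq_nonneg (2 * x + y)]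
  · rw [abs_le]
    constructor <;> nlinarith [sq_nonneg (x + 2 * y), sq_nonneg (2 * x + y)]

private theorem not_nf (x y : ℤ) : nf x y ≠ 2 ∧ nf x y ≠ 5 ∧ nf x y ≠ 6 ∧ nf x y ≠ 8 ∧
    nf x y ≠ 10 := by
  by_cases h : nf x y ≤ 10
  · obtain ⟨h1, h2⟩ := nf_bound h
    rw [abs_le] at h1 h2
    obtain ⟨h1, h1'⟩ := h1
    obtain ⟨h2, h2'⟩ := h2
    unfold nf
    interval_cases x <;> interval_cases y <;> decide
  · refine ⟨?_, ?_, ?_, ?_, ?_⟩ <;> intro h' <;> omega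

private theorem fin_check : ∀ a ∈ Finset.Icc (-3 : ℤ) 3, ∀ b ∈ Finset.Icc (-3 : ℤ) 3,
    ∀ c ∈ Finset.Icc (-3 : ℤ) 3, ∀ d ∈ Finset.Icc (-3 : ℤ) 3, b * c = a * d →
      (a ≠ 0 ∨ b ≠ 0) → (c ≠ 0 ∨ d ≠ 0) → hx a b + hx c d ≤ 4 →
      nf a b + nf c d = 2 ∨ nf a b + nf c d = 5 ∨ nf a b + nf c d = 6 ∨ nf a b + nf c d = 8 ∨
        nf a b + nf c d = 10 := by
  decide +kernel

theorem hx_le {x y n : ℤ} (h1 : |x| ≤ n) (h2 : |y| ≤ n) (h3 : |x + y| ≤ n) : hx x y ≤ n :=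
  max_le (max_le h1 h2) h3

theorem hx_spec (x y : ℤ) : |x| ≤ hx x y ∧ |y| ≤ hx x y ∧ |x + y| ≤ hx x y :=
  ⟨(le_max_left _ _).trans (le_max_left _ _), (le_max_right _ _).trans (le_max_left _ _),
    le_max_right _ _⟩

private theorem nf_le (x y : ℤ) : nf x y ≤ hx x y ^ 2 := by
  obtain ⟨h1, h2, h3⟩ := hx_spec x y
  have e1 := sq_abs x
  have e2 := sq_abs y
  have e3 := sq_abs (x + y)
  have p1 := pow_le_pow_left₀ (abs_nonneg x) h1 2
  have p2 := pow_le_pow_left₀ (abs_nonneg y) h2 2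
  have p3 := pow_le_pow_left₀ (abs_nonneg (x + y)) h3 2
  rw [e1] at p1
  rw [e2] at p2
  rw [e3] at p3
  unfold nf
  by_cases h : 0 ≤ x * y
  · nlinarith
  · push Not at h
    by_cases h' : 0 ≤ x * (x + y)
    · by_cases h'' : 0 ≤ y * (x + y)
      · nlinarith
      · nlinarith
    · nlinarith

private theorem le_nf (x y : ℤ) : 3 * hx x y ^ 2 ≤ 4 * nf x y := by
  unfold nf hx
  rcases max_choice (max |x| |y|) |x + y| with h | h
  · rw [h]
    rcases max_choice |x| |y| with h' | h'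
    · rw [h', sq_abs]
      nlinarith [sq_nonneg (x + 2 * y)]
    · rw [h', sq_abs]
      nlinarith [sq_nonneg (2 * x + y)]
  · rw [h, sq_abs]
    nlinarith [sq_nonneg (x - y)]

private theorem hx_pos {x y : ℤ} (h : x ≠ 0 ∨ y ≠ 0) : 1 ≤ hx x y := by
  obtain ⟨h1, h2, -⟩ := hx_spec x y
  rcases h with h | h
  · exact (Int.one_le_abs h).trans h1
  · exact (Int.one_le_abs h).trans h2

theorem arith {a b c d x y : ℤ} (h0 : a ≠ 0 ∨ b ≠ 0) (h0' : c ≠ 0 ∨ d ≠ 0)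
    (hn : hx a b + hx c d + hx x y ≤ 8) (hd : b * c = a * d) (hN : nf x y = nf a b + nf c d) :
    False := by
  have p1 := hx_pos h0
  have p2 := hx_pos h0'
  have p3 : 0 ≤ hx x y := (abs_nonneg x).trans (hx_spec x y).1
  have q1 := le_nf a b
  have q2 := le_nf c d
  have q3 := nf_le x y
  have h4 : hx a b + hx c d ≤ 4 := by
    by_contra hc
    push Not at hc
    have h5 : hx x y ≤ 3 := by linarith
    have h6 : hx x y ^ 2 ≤ 9 := by nlinarith
    nlinarith [sq_nonneg (hx a b - hx c d)]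
  obtain ⟨s1, s2, -⟩ := hx_spec a b
  obtain ⟨s3, s4, -⟩ := hx_spec c d
  have m1 : ∀ z : ℤ, |z| ≤ 3 → z ∈ Finset.Icc (-3 : ℤ) 3 := by
    intro z hz
    rw [abs_le] at hz
    exact Finset.mem_Icc.2 hz
  obtain ⟨n1, n2, n3, n4, n5⟩ := not_nf x y
  rcases fin_check a (m1 a (by linarith)) b (m1 b (by linarith)) c (m1 c (by linarith)) d
    (m1 d (by linarith)) hd h0 h0' h4 with h | h | h | h | h
  · exact n1 (hN.trans h)
  · exact n2 (hN.trans h)
  · exact n3 (hN.trans h)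
  · exact n4 (hN.trans h)
  · exact n5 (hN.trans h)

end Pool.Agent.Lib.MP_dd2281_co
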