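import Mathlib

/-!
# MP_dd2281_co: sums of roots of unity
-/

set_option autoImplicit false

namespace Pool.Agent.Lib.MP_dd2281_co

open Polynomial

/-- A Galois automorphism. -/
theorem galois {N : ℕ} (hN : 0 < N) (h4 : 4 ∣ N) (L : List ℂ) (hL : ∀ z ∈ L, z ^ N = 1)
    (h0 : L.sum = 0) : (L.map fun z => z ^ (1 + N / 2)).sum = 0 := by
  classical
  obtain ⟨ζ, hζ⟩ : ∃ ζ : ℂ, IsPrimitiveRoot ζ N := ⟨_, Complex.isPrimitiveRoot_exp N hN.ne'⟩
  have hs : ∀ z : ℂ, ∃ s : ℕ, z ^ N = 1 → ζ ^ s = z := by
    intro z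
    by_cases hz : z ^ N = 1
    · have : NeZero N := ⟨hN.ne'⟩
      obtain ⟨i, -, hi⟩ := hζ.eq_pow_of_pow_eq_one hz
      exact ⟨i, fun _ => hi⟩
    · exact ⟨0, fun h => absurd h hz⟩
  choose s hs using hs
  have hcop : Nat.Coprime (1 + N / 2) N := by
    obtain ⟨k, rfl⟩ := h4
    have e : 4 * k / 2 = 2 * k := by omega
    rw [e]
    refine Nat.Coprime.mul_right ?_ ?_
    · have h2 : Nat.Coprime (1 + 2 * k) 2 := by
        rw [Nat.coprime_two_right]
        exact ⟨k, by ring⟩
      exact Nat.Coprime.mul_right h2 h2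
    · have : Nat.gcd (1 + 2 * k) k = 1 := by
        rw [Nat.gcd_add_mul_right_left]
        exact Nat.gcd_one_left k
      exact this
  have hζ' : IsPrimitiveRoot (ζ ^ (1 + N / 2)) N := hζ.pow_of_coprime _ hcop
  let P : ℚ[X] := (L.map fun z => (X : ℚ[X]) ^ s z).sum
  have hev : ∀ x : ℂ, aeval x P = (L.map fun z => x ^ s z).sum := by
    intro x
    change aeval x ((L.map fun z => (X : ℚ[X]) ^ s z).sum) = _
    rw [map_list_sum, List.map_map]
    congr 1
    refine List.map_congr_left fun z _ => ?_
    simp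
  have h1 : aeval ζ P = 0 := by
    rw [hev]
    have : (L.map fun z => ζ ^ s z) = L := by
      calc (L.map fun z => ζ ^ s z) = L.map id := List.map_congr_left fun z hz => hs z (hL z hz)
        _ = L := List.map_id L
    rw [this, h0]
  have h2 : minpoly ℚ ζ ∣ P := minpoly.dvd ℚ ζ h1
  rw [← cyclotomic_eq_minpoly_rat hζ hN, cyclotomic_eq_minpoly_rat hζ' hN] at h2
  have h3 : aeval (ζ ^ (1 + N / 2)) P = 0 := by
    obtain ⟨Q, hQ⟩ := h2
    rw [hQ, map_mul, minpoly.aeval, zero_mul]
  rw [hev] at h3
  have h4 : (L.map fun z => z ^ (1 + N / 2)) = L.map fun z => (ζ ^ (1 + N / 2)) ^ s z := by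
    refine List.map_congr_left fun z hz => ?_
    rw [← pow_mul, mul_comm, pow_mul, hs z (hL z hz)]
  rw [h4]
  exact h3

open Classical in
theorem half {N : ℕ} (hN : 0 < N) (h4 : 4 ∣ N) (L : List ℂ) (hL : ∀ z ∈ L, z ^ N = 1)
    (h0 : L.sum = 0) : (L.filter fun z => z ^ (N / 2) = 1).sum = 0 := by
  have h1 := galois hN h4 L hL h0
  have h2 : N / 2 * 2 = N := by omega
  have key : ∀ L : List ℂ, (∀ z ∈ L, z ^ N = 1) →
      L.sum + (L.map fun z => z ^ (1 + N / 2)).sum =
        2 * (L.filter fun z => z ^ (N / 2) = 1).sum := by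
    intro L
    induction L with
    | nil => intro _; simp
    | cons z L ih =>
      intro hz
      have ih' := ih fun y hy => hz y (List.mem_cons_of_mem _ hy)
      have h3 : z ^ N = 1 := hz z List.mem_cons_self
      have h5 : z ^ (N / 2) = 1 ∨ z ^ (N / 2) = -1 := by
        rw [← h2, pow_mul, sq] at h3
        exact mul_self_eq_one_iff.1 h3
      rcases h5 with h5 | h5
      · rw [List.sum_cons, List.map_cons, List.sum_cons,
          List.filter_cons_of_pos (by simpa using h5), List.sum_cons, pow_add, pow_one, h5]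
        linear_combination ih'
      · have h6 : ¬ z ^ (N / 2) = 1 := by
          rw [h5]
          norm_num
        rw [List.sum_cons, List.map_cons, List.sum_cons,
          List.filter_cons_of_neg (by simpa using h6), pow_add, pow_one, h5]
        linear_combination ih'
  have h6 := key L hL
  rw [h0, h1] at h6
  have : (2 : ℂ) * (L.filter fun z => z ^ (N / 2) = 1).sum = 0 := by rw [← h6]; ring
  exact (mul_eq_zero.1 this).resolve_left two_ne_zero

open Classical in
theorem level {m : ℕ} (hm : 0 < m) (a : ℕ) (L : List ℂ) (hL : ∀ z ∈ L, z ^ (2 ^ (a + 1) * m) = 1)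
    (h0 : L.sum = 0) : ∀ b ≤ a, (L.filter fun z => z ^ (2 ^ (a - b + 1) * m) = 1).sum = 0 := by
  intro b
  induction b with
  | zero =>
    intro _
    have : (L.filter fun z => z ^ (2 ^ (a - 0 + 1) * m) = 1) = L := by
      rw [List.filter_eq_self]
      intro z hz
      simpa using hL z hz
    rw [this, h0]
  | succ b ih =>
    intro hb
    have ih' := ih (by omega)
    have hN : 2 ^ (a - b + 1) * m / 2 = 2 ^ (a - (b + 1) + 1) * m := by
      have e : a - b + 1 = (a - (b + 1) + 1) + 1 := by omega
      rw [e, pow_succ]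
      have : 2 ^ (a - (b + 1) + 1) * 2 * m = (2 ^ (a - (b + 1) + 1) * m) * 2 := by ring
      rw [this, Nat.mul_div_cancel _ (by norm_num)]
    have h1 := half (N := 2 ^ (a - b + 1) * m) (by positivity) (by
      have e : a - b + 1 = (a - (b + 1)) + 2 := by omega
      rw [e, pow_add]
      exact ⟨2 ^ (a - (b + 1)) * m, by ring⟩)
      (L.filter fun z => z ^ (2 ^ (a - b + 1) * m) = 1) (by
        intro z hz
        have := (List.mem_filter.1 hz).2
        simpa using this) ih'
    rw [List.filter_filter] at h1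
    rw [← h1]
    congr 1
    refine List.filter_congr fun z _ => ?_
    rw [hN]
    have h2 : z ^ (2 ^ (a - (b + 1) + 1) * m) = 1 → z ^ (2 ^ (a - b + 1) * m) = 1 := by
      intro h
      have e : 2 ^ (a - b + 1) * m = (2 ^ (a - (b + 1) + 1) * m) * 2 := by
        have e : a - b + 1 = (a - (b + 1) + 1) + 1 := by omega
        rw [e, pow_succ]
        ring
      rw [e, pow_mul, h, one_pow]
    by_cases h3 : z ^ (2 ^ (a - (b + 1) + 1) * m) = 1
    · simp [h3, h2 h3]
    · simp [h3]

open Classical in
/-- The sum over the class `z ^ (2 m) = -1` vanishes. -/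
theorem cls {m : ℕ} (hm : 0 < m) {a : ℕ} (ha : 1 ≤ a) (L : List ℂ)
    (hL : ∀ z ∈ L, z ^ (2 ^ (a + 1) * m) = 1) (h0 : L.sum = 0) :
    (L.map fun z => if z ^ (2 * m) = -1 then z else 0).sum = 0 := by
  have h1 := level hm a L hL h0 a le_rfl
  have h2 := level hm a L hL h0 (a - 1) (by omega)
  have e1 : a - a + 1 = 1 := by omega
  have e2 : a - (a - 1) + 1 = 2 := by omega
  rw [e1, pow_one] at h1
  rw [e2] at h2
  have key : ∀ L : List ℂ, (L.map fun z => if z ^ (2 * m) = -1 then z else 0).sum =
      (L.filter fun z => z ^ (2 ^ 2 * m) = 1).sum - (L.filter fun z => z ^ (2 * m) = 1).sum := by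
    intro L
    induction L with
    | nil => simp
    | cons z L ih =>
      have e : 2 ^ 2 * m = 2 * m * 2 := by ring
      by_cases h3 : z ^ (2 * m) = 1
      · have h4 : z ^ (2 ^ 2 * m) = 1 := by rw [e, pow_mul, h3, one_pow]
        have h5 : ¬ z ^ (2 * m) = -1 := by rw [h3]; norm_num
        rw [List.map_cons, List.sum_cons, List.filter_cons_of_pos (by simpa using h4),
          List.filter_cons_of_pos (by simpa using h3), List.sum_cons, List.sum_cons, if_neg h5, ih]
        ring
      · by_cases h4 : z ^ (2 * m) = -1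
        · have h5 : z ^ (2 ^ 2 * m) = 1 := by rw [e, pow_mul, h4]; norm_num
          rw [List.map_cons, List.sum_cons, List.filter_cons_of_pos (by simpa using h5),
            List.filter_cons_of_neg (by simpa using h3), List.sum_cons, if_pos h4, ih]
          ring
        · have h5 : ¬ z ^ (2 ^ 2 * m) = 1 := by
            intro h
            rw [e, pow_mul, sq] at h
            rcases mul_self_eq_one_iff.1 h with h | h
            · exact h3 h
            · exact h4 h
          rw [List.map_cons, List.sum_cons, List.filter_cons_of_neg (by simpa using h5),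
            List.filter_cons_of_neg (by simpa using h3), if_neg h4, ih]
          ring
  rw [key, h1, h2, sub_zero]

end Pool.Agent.Lib.MP_dd2281_co
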