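import Mathlib

/-!
# MP_dd2281_co: circulations and motions
-/

set_option autoImplicit false

namespace Pool.Agent.Lib.MP_dd2281_co

open Set

variable {V : Type} {G : SimpleGraph V}

/-- The sum of `g` over the darts of a walk. -/
def circ (g : V → V → ℂ) {u v : V} (W : G.Walk u v) : ℂ :=
  (W.darts.map fun d => g d.fst d.snd).sum

theorem circ_nil (g : V → V → ℂ) (u : V) : circ g (SimpleGraph.Walk.nil : G.Walk u u) = 0 := by
  simp [circ]

theorem circ_cons (g : V → V → ℂ) {u v w : V} (h : G.Adj u v) (W : G.Walk v w) :
    circ g (SimpleGraph.Walk.cons h W) = g u v + circ g W := by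
  simp [circ]

theorem circ_append (g : V → V → ℂ) {u v w : V} (W : G.Walk u v) (W' : G.Walk v w) :
    circ g (W.append W') = circ g W + circ g W' := by
  simp [circ]

theorem circ_reverse (g : V → V → ℂ) (hg : ∀ u v, g v u = -g u v) {u v : V} (W : G.Walk u v) :
    circ g W.reverse = -circ g W := by
  induction W with
  | nil => simp [circ_nil]
  | cons h W ih =>
    rw [SimpleGraph.Walk.reverse_cons, circ_append, ih, circ_cons, circ_cons, circ_nil, hg]
    ring

theorem circ_pot (p : V → ℂ) {u v : V} (W : G.Walk u v) :
    circ (fun a b => p b - p a) W = p v - p u := by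
  induction W with
  | nil => simp [circ_nil]
  | cons h W ih =>
    rw [circ_cons, ih]
    ring

theorem circ_congr {g g' : V → V → ℂ} {u v : V} (W : G.Walk u v)
    (h : ∀ a b, G.Adj a b → g a b = g' a b) : circ g W = circ g' W := by
  unfold circ
  congr 1
  refine List.map_congr_left fun d _ => ?_
  exact h _ _ d.adj

/-- From circulation free functions to motions. -/
theorem flex (p : V → ℂ) (hp : ∀ u v, G.Adj u v → ‖p v - p u‖ = 1) (g : ℝ → V → V → ℂ)
    (hanti : ∀ t u v, g t v u = -g t u v) (h0 : ∀ u v, g 0 u v = p v - p u)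
    (hn : ∀ t ∈ Icc (0 : ℝ) 1, ∀ u v, G.Adj u v → ‖g t u v‖ = 1)
    (hc : ∀ u v, ContinuousOn (fun t => g t u v) (Icc 0 1))
    (A : V) (hz : ∀ t ∈ Icc (0 : ℝ) 1, ∀ W : G.Walk A A, circ (g t) W = 0) :
    ∃ m : ℝ → V → ℂ, ((∀ v, ContinuousOn (fun t => m t v) (Icc 0 1)) ∧ m 0 = p ∧
      ∀ t ∈ Icc (0 : ℝ) 1, ∀ u v, G.Adj u v → ‖m t v - m t u‖ = 1) ∧
      ∀ t ∈ Icc (0 : ℝ) 1, ∀ v (W : G.Walk A v), m t v - m t A = circ (g t) W := by
  classical
  let m : ℝ → V → ℂ := fun t v =>
    if h : G.Reachable A v then p A + circ (g t) h.some else p v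
  have hm : ∀ t ∈ Icc (0 : ℝ) 1, ∀ v (W : G.Walk A v), m t v = p A + circ (g t) W := by
    intro t ht v W
    have hr : G.Reachable A v := ⟨W⟩
    have h1 := hz t ht (hr.some.append W.reverse)
    rw [circ_append, circ_reverse (g t) (hanti t)] at h1
    change (if h : G.Reachable A v then p A + circ (g t) h.some else p v) = _
    rw [dif_pos hr]
    linear_combination h1
  have hm' : ∀ t v, ¬ G.Reachable A v → m t v = p v := fun t v h => dif_neg h
  refine ⟨m, ⟨?_, ?_, ?_⟩, ?_⟩
  · intro v
    by_cases h : G.Reachable A v
    · have h1 : (fun t => m t v) = fun t => p A + circ (g t) h.some := by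
        funext t
        exact dif_pos h
      rw [h1]
      refine continuousOn_const.add ?_
      have h2 : ∀ {a b : V} (W : G.Walk a b), ContinuousOn (fun t => circ (g t) W) (Icc 0 1) := by
        intro a b W
        induction W with
        | nil =>
          simp only [circ_nil]
          exact continuousOn_const
        | cons h W ih =>
          simp only [circ_cons]
          exact (hc _ _).add ih
      exact h2 h.some
    · have h1 : (fun t => m t v) = fun _ => p v := by
        funext t
        exact hm' t v h
      rw [h1]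
      exact continuousOn_const
  · funext v
    by_cases h : G.Reachable A v
    · rw [hm 0 ⟨le_refl _, zero_le_one⟩ v h.some]
      have h1 : circ (g 0) h.some = p v - p A := by
        rw [← circ_pot p h.some]
        exact circ_congr _ fun a b _ => h0 a b
      rw [h1]
      ring
    · exact hm' 0 v h
  · intro t ht u v huv
    by_cases h : G.Reachable A u
    · rw [hm t ht u h.some, hm t ht v (h.some.append (SimpleGraph.Walk.cons huv SimpleGraph.Walk.nil)),
        circ_append, circ_cons, circ_nil]
      have h2 := hn t ht u v huv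
      rw [← h2]
      congr 1
      ring
    · have h' : ¬ G.Reachable A v := fun h2 => h (h2.trans huv.symm.reachable)
      rw [hm' t u h, hm' t v h']
      exact hp u v huv
  · intro t ht v W
    rw [hm t ht v W, hm t ht A SimpleGraph.Walk.nil, circ_nil]
    ring

end Pool.Agent.Lib.MP_dd2281_co
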