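import Mathlib
import Pool.Agent.Lib.MP_dd2281_co.Arith

/-!
# MP_dd2281_co: the triangular lattice
-/

set_option autoImplicit false

namespace Pool.Agent.Lib.MP_dd2281_co

/-- `exp (i π / 3)`. -/
noncomputable def om : ℂ := ⟨1 / 2, √3 / 2⟩

/-- The element `x + y ω` of the lattice. -/
noncomputable def lam (x y : ℤ) : ℂ := x + y * om

private theorem s3 : √3 * √3 = 3 := Real.mul_self_sqrt (by norm_num)

theorem om_sq : om ^ 2 = om - 1 := by
  apply Complex.ext
  · simp only [om, sq, Complex.mul_re, Complex.sub_re, Complex.one_re]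
    linear_combination (-1 / 4 : ℝ) * s3
  · simp only [om, sq, Complex.mul_im, Complex.sub_im, Complex.one_im]
    ring

theorem lam_re (x y : ℤ) : (lam x y).re = x + y / 2 := by
  simp only [lam, om, Complex.add_re, Complex.mul_re, Complex.intCast_re, Complex.intCast_im]
  ring

theorem lam_im (x y : ℤ) : (lam x y).im = √3 / 2 * y := by
  simp only [lam, om, Complex.add_im, Complex.mul_im, Complex.intCast_re, Complex.intCast_im]
  ring

theorem lam_norm (x y : ℤ) : ‖lam x y‖ ^ 2 = nf x y := by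
  rw [← Complex.normSq_eq_norm_sq, Complex.normSq_apply, lam_re, lam_im]
  unfold nf
  push_cast
  linear_combination (y * y / 4 : ℝ) * s3

theorem lam_two_norm (a b c d : ℤ) : ‖lam a b + Complex.I * lam c d‖ ^ 2 =
    nf a b + nf c d + √3 * (b * c - a * d : ℤ) := by
  rw [← Complex.normSq_eq_norm_sq, Complex.normSq_apply]
  simp only [Complex.add_re, Complex.add_im, Complex.mul_re, Complex.mul_im, Complex.I_re,
    Complex.I_im, lam_re, lam_im]
  unfold nf
  push_cast
  linear_combination ((b * b + d * d) / 4 : ℝ) * s3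

theorem lam_zero_iff {x y : ℤ} : lam x y = 0 ↔ x = 0 ∧ y = 0 := by
  constructor
  · intro h
    have h1 := lam_im x y
    have h2 := lam_re x y
    rw [h] at h1 h2
    have h3 : (0 : ℝ) < √3 := Real.sqrt_pos.2 (by norm_num)
    have h4 : (y : ℝ) = 0 := by
      have : √3 / 2 * (y : ℝ) = 0 := h1.symm
      rcases mul_eq_zero.1 this with h | h
      · linarith
      · exact h
    have h5 : (x : ℝ) = 0 := by
      rw [h4] at h2
      have : (0 : ℝ) = x + 0 / 2 := h2
      linarith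
    exact ⟨by exact_mod_cast h5, by exact_mod_cast h4⟩
  · rintro ⟨rfl, rfl⟩
    simp [lam]

theorem lam_pow_pos {x y : ℤ} (h : x * y * (x + y) = 0) : lam x y ^ 6 = (nf x y : ℂ) ^ 3 := by
  have h' : (x : ℂ) * y * (x + y) = 0 := by exact_mod_cast h
  have e1 : lam x y ^ 3 = (x ^ 3 - 3 * x * y ^ 2 - y ^ 3 : ℂ) + 3 * (x * y * (x + y)) * om := by
    unfold lam
    linear_combination ((y : ℂ) ^ 3 * om + 3 * x * y ^ 2 + y ^ 3) * om_sq
  have e2 : lam x y ^ 6 = (lam x y ^ 3) ^ 2 := by ring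
  rw [e2, e1, h']
  unfold nf
  push_cast
  linear_combination (-3 * ((x : ℂ) ^ 3 - 3 * x * y ^ 2 - y ^ 3 + 3 * (x * y * (x + y)))) * h'

theorem lam_pow_neg {x y : ℤ} (h : (x - y) * (2 * x + y) * (x + 2 * y) = 0) :
    lam x y ^ 6 = -(nf x y : ℂ) ^ 3 := by
  have h' : ((x : ℂ) - y) * (2 * x + y) * (x + 2 * y) = 0 := by exact_mod_cast h
  have e1 : lam x y ^ 3 = (x ^ 3 - 3 * x * y ^ 2 - y ^ 3 : ℂ) + 3 * (x * y * (x + y)) * om := by
    unfold lam
    linear_combination ((y : ℂ) ^ 3 * om + 3 * x * y ^ 2 + y ^ 3) * om_sq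
  have e2 : lam x y ^ 6 = (lam x y ^ 3) ^ 2 := by ring
  have e3 : lam x y ^ 6 = (x ^ 3 - 3 * x * y ^ 2 - y ^ 3 : ℂ) ^ 2 - 9 * (x * y * (x + y)) ^ 2 +
      3 * (x * y * (x + y)) * (((x : ℂ) - y) * (2 * x + y) * (x + 2 * y)) * om := by
    rw [e2, e1]
    linear_combination (9 * ((x : ℂ) * y * (x + y)) ^ 2) * om_sq
  rw [e3, h']
  unfold nf
  push_cast
  linear_combination ((x : ℂ) ^ 3 - 3 * x * y ^ 2 - y ^ 3) * h'

private theorem small_check : ∀ x ∈ Finset.Icc (-2 : ℤ) 2, ∀ y ∈ Finset.Icc (-2 : ℤ) 2,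
    |x + y| ≤ 2 → x * y * (x + y) = 0 ∨ (x - y) * (2 * x + y) * (x + 2 * y) = 0 := by
  decide +kernel

theorem small {x y : ℤ} (h : hx x y ≤ 2) :
    x * y * (x + y) = 0 ∨ (x - y) * (2 * x + y) * (x + 2 * y) = 0 := by
  obtain ⟨h1, h2, h3⟩ := hx_spec x y
  have m1 : ∀ z : ℤ, |z| ≤ 2 → z ∈ Finset.Icc (-2 : ℤ) 2 := by
    intro z hz
    rw [abs_le] at hz
    exact Finset.mem_Icc.2 hz
  exact small_check x (m1 x (h1.trans h)) y (m1 y (h2.trans h)) (h3.trans h)

private theorem tiny_check : ∀ x ∈ Finset.Icc (-1 : ℤ) 1, ∀ y ∈ Finset.Icc (-1 : ℤ) 1,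
    |x + y| ≤ 1 → x * y * (x + y) = 0 := by
  decide +kernel

theorem tiny {x y : ℤ} (h : hx x y ≤ 1) : x * y * (x + y) = 0 := by
  obtain ⟨h1, h2, h3⟩ := hx_spec x y
  have m1 : ∀ z : ℤ, |z| ≤ 1 → z ∈ Finset.Icc (-1 : ℤ) 1 := by
    intro z hz
    rw [abs_le] at hz
    exact Finset.mem_Icc.2 hz
  exact tiny_check x (m1 x (h1.trans h)) y (m1 y (h2.trans h)) (h3.trans h)

theorem unit_lam {u : ℂ} (h : u ^ 6 = 1) : ∃ x y : ℤ, u = lam x y ∧ hx x y ≤ 1 := by
  have h1 : (u - 1) * ((u + 1) * ((u - om) * ((u - (1 - om)) * ((u + om) * (u + (1 - om)))))) = 0 := by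
    have e : (u - 1) * ((u + 1) * ((u - om) * ((u - (1 - om)) * ((u + om) * (u + (1 - om)))))) =
        u ^ 6 - 1 := by
      linear_combination (-(u ^ 2 - 1) * (2 * u ^ 2 + 1 + om - om ^ 2)) * om_sq
    rw [e, h, sub_self]
  rcases mul_eq_zero.1 h1 with h2 | h2
  · exact ⟨1, 0, by unfold lam; push_cast; linear_combination h2, by decide⟩
  rcases mul_eq_zero.1 h2 with h2 | h2
  · exact ⟨-1, 0, by unfold lam; push_cast; linear_combination h2, by decide⟩
  rcases mul_eq_zero.1 h2 with h2 | h2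
  · exact ⟨0, 1, by unfold lam; push_cast; linear_combination h2, by decide⟩
  rcases mul_eq_zero.1 h2 with h2 | h2
  · exact ⟨1, -1, by unfold lam; push_cast; linear_combination h2, by decide⟩
  rcases mul_eq_zero.1 h2 with h2 | h2
  · exact ⟨0, -1, by unfold lam; push_cast; linear_combination h2, by decide⟩
  · exact ⟨-1, 1, by unfold lam; push_cast; linear_combination h2, by decide⟩

theorem hx_add (x y x' y' : ℤ) : hx (x + x') (y + y') ≤ hx x y + hx x' y' := by
  obtain ⟨h1, h2, h3⟩ := hx_spec x y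
  obtain ⟨h1', h2', h3'⟩ := hx_spec x' y'
  refine hx_le ((abs_add_le _ _).trans (add_le_add h1 h1'))
    ((abs_add_le _ _).trans (add_le_add h2 h2')) ?_
  have e : x + x' + (y + y') = (x + y) + (x' + y') := by ring
  rw [e]
  exact (abs_add_le _ _).trans (add_le_add h3 h3')

theorem lat {ι : Type} (s : Finset ι) (z : ι → ℂ) {z0 : ℂ} (h0 : z0 ≠ 0)
    (h : ∀ i ∈ s, z i ^ 6 = z0 ^ 6) :
    ∃ x y : ℤ, ∑ i ∈ s, z i = z0 * lam x y ∧ hx x y ≤ s.card := by
  classical
  induction s using Finset.induction_on with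
  | empty =>
    refine ⟨0, 0, ?_, ?_⟩
    · rw [Finset.sum_empty, lam_zero_iff.2 ⟨rfl, rfl⟩, mul_zero]
    · rw [Finset.card_empty]
      decide
  | insert i s hi ih =>
    obtain ⟨x, y, e, hc⟩ := ih fun j hj => h j (Finset.mem_insert_of_mem hj)
    have h1 : (z i / z0) ^ 6 = 1 := by
      rw [div_pow, h i (Finset.mem_insert_self i s), div_self (pow_ne_zero 6 h0)]
    obtain ⟨x', y', e', hc'⟩ := unit_lam h1
    refine ⟨x' + x, y' + y, ?_, ?_⟩
    · rw [Finset.sum_insert hi, e]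
      have e2 : z i = z0 * lam x' y' := by
        rw [← e']
        field_simp
      rw [e2]
      unfold lam
      push_cast
      ring
    · rw [Finset.card_insert_of_notMem hi]
      push_cast
      have := hx_add x' y' x y
      linarith

end Pool.Agent.Lib.MP_dd2281_co
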