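import Mathlib

/-!
# MP_dd2281_co: triangles with two sides of fixed length
-/

set_option autoImplicit false

namespace Pool.Agent.Lib.MP_dd2281_co

open Set ComplexConjugate

private theorem exp_sign (y : ℝ) : ∃ ε : ℝ, ε ^ 2 = 1 ∧ ε * |y| = y := by
  rcases le_total 0 y with h | h
  · exact ⟨1, by norm_num, by rw [abs_of_nonneg h, one_mul]⟩
  · exact ⟨-1, by norm_num, by rw [abs_of_nonpos h]; ring⟩

theorem tri_flex {x P : ℂ} (hx : x ≠ 0) (hP : P ≠ 0) (W : ℝ → ℂ)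
    (hc : ContinuousOn W (Icc 0 1)) (h0 : W 0 = x + P) (hn : ∀ t ∈ Icc (0 : ℝ) 1, W t ≠ 0)
    (hlo : ∀ t ∈ Icc (0 : ℝ) 1, (‖x‖ - ‖P‖) ^ 2 ≤ ‖W t‖ ^ 2)
    (hhi : ∀ t ∈ Icc (0 : ℝ) 1, ‖W t‖ ^ 2 ≤ (‖x‖ + ‖P‖) ^ 2) :
    ∃ α β : ℝ → ℂ, ContinuousOn α (Icc 0 1) ∧ ContinuousOn β (Icc 0 1) ∧ α 0 = 1 ∧ β 0 = 1 ∧
      (∀ t ∈ Icc (0 : ℝ) 1, ‖α t‖ = 1) ∧ (∀ t ∈ Icc (0 : ℝ) 1, ‖β t‖ = 1) ∧
      ∀ t ∈ Icc (0 : ℝ) 1, α t * x + β t * P = W t := by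
  have hx' : 0 < ‖x‖ := norm_pos_iff.2 hx
  have hP' : 0 < ‖P‖ := norm_pos_iff.2 hP
  -- the cosine
  let c : ℝ → ℝ := fun t => (‖W t‖ ^ 2 + ‖x‖ ^ 2 - ‖P‖ ^ 2) / (2 * ‖W t‖ * ‖x‖)
  obtain ⟨ε, hε, hε'⟩ := exp_sign (conj (W 0) * x).im
  let s : ℝ → ℝ := fun t => ε * √(1 - c t ^ 2)
  have hWp : ∀ t ∈ Icc (0 : ℝ) 1, 0 < ‖W t‖ := fun t ht => norm_pos_iff.2 (hn t ht)
  have hc1 : ∀ t ∈ Icc (0 : ℝ) 1, c t ^ 2 ≤ 1 := by
    intro t ht
    have h1 := hWp t ht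
    have h2 := hlo t ht
    have h3 := hhi t ht
    change ((‖W t‖ ^ 2 + ‖x‖ ^ 2 - ‖P‖ ^ 2) / (2 * ‖W t‖ * ‖x‖)) ^ 2 ≤ 1
    rw [div_pow, div_le_one (by positivity)]
    have h4 : ‖W t‖ ≤ ‖x‖ + ‖P‖ := by
      refine le_of_sq_le_sq ?_ (by positivity)
      exact h3
    have h5 : |‖x‖ - ‖P‖| ≤ ‖W t‖ := by
      refine abs_le_of_sq_le_sq h2 h1.le
    rw [abs_le] at h5
    have h6 : 0 ≤ (‖W t‖ + ‖x‖ - ‖P‖) * (‖W t‖ + ‖x‖ + ‖P‖) * ((‖P‖ + ‖x‖ - ‖W t‖) *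
        (‖P‖ - ‖x‖ + ‖W t‖)) := by
      have a1 : 0 ≤ ‖W t‖ + ‖x‖ - ‖P‖ := by linarith [h5.2, h5.1]
      have a2 : 0 ≤ ‖P‖ + ‖x‖ - ‖W t‖ := by linarith
      have a3 : 0 ≤ ‖P‖ - ‖x‖ + ‖W t‖ := by linarith [h5.2, h5.1]
      positivity
    nlinarith
  have hcs : ∀ t ∈ Icc (0 : ℝ) 1, c t ^ 2 + s t ^ 2 = 1 := by
    intro t ht
    have h1 := hc1 t ht
    change c t ^ 2 + (ε * √(1 - c t ^ 2)) ^ 2 = 1
    rw [mul_pow, hε, Real.sq_sqrt (by linarith)]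
    ring
  have hcc : ContinuousOn c (Icc 0 1) := by
    refine ContinuousOn.div ?_ ?_ ?_
    · exact ((hc.norm.pow 2).add continuousOn_const).sub continuousOn_const
    · exact (continuousOn_const.mul hc.norm).mul continuousOn_const
    · intro t ht
      have := hWp t ht
      positivity
  have hsc : ContinuousOn s (Icc 0 1) :=
    continuousOn_const.mul (Real.continuous_sqrt.comp_continuousOn
      (continuousOn_const.sub (hcc.pow 2)))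
  let α : ℝ → ℂ := fun t => (‖x‖ / x) * (W t / ‖W t‖) * (c t + s t * Complex.I)
  have hαc : ContinuousOn α (Icc 0 1) := by
    refine (continuousOn_const.mul ?_).mul ?_
    · refine hc.div (Complex.continuous_ofReal.comp_continuousOn hc.norm) ?_
      intro t ht
      exact_mod_cast (hWp t ht).ne'
    · exact (Complex.continuous_ofReal.comp_continuousOn hcc).add
        ((Complex.continuous_ofReal.comp_continuousOn hsc).mul continuousOn_const)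
  have hcsn : ∀ t ∈ Icc (0 : ℝ) 1, ‖((c t : ℂ) + s t * Complex.I)‖ = 1 := by
    intro t ht
    have h1 : ‖((c t : ℂ) + s t * Complex.I)‖ ^ 2 = 1 := by
      rw [← Complex.normSq_eq_norm_sq, Complex.normSq_add_mul_I]
      exact hcs t ht
    exact (pow_eq_one_iff_of_nonneg (norm_nonneg _) two_ne_zero).1 h1
  have hαn : ∀ t ∈ Icc (0 : ℝ) 1, ‖α t‖ = 1 := by
    intro t ht
    have h1 := hWp t ht
    change ‖((‖x‖ : ℂ) / x) * (W t / ‖W t‖) * (c t + s t * Complex.I)‖ = 1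
    rw [norm_mul, hcsn t ht, norm_mul, norm_div, norm_div, Complex.norm_real, Complex.norm_real,
      norm_norm, norm_norm, div_self hx'.ne', div_self h1.ne', one_mul, one_mul]
  -- the law of cosines
  have hβn : ∀ t ∈ Icc (0 : ℝ) 1, ‖W t - α t * x‖ = ‖P‖ := by
    intro t ht
    have h1 := hWp t ht
    have h1' : (‖W t‖ : ℂ) ≠ 0 := by exact_mod_cast h1.ne'
    have e1 : W t - α t * x = (W t / ‖W t‖) * (‖W t‖ - ‖x‖ * (c t + s t * Complex.I)) := by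
      change W t - ((‖x‖ : ℂ) / x) * (W t / ‖W t‖) * (c t + s t * Complex.I) * x = _
      field_simp
    have e2 : ‖(‖W t‖ : ℂ) - ‖x‖ * (c t + s t * Complex.I)‖ ^ 2 = ‖P‖ ^ 2 := by
      have e3 : (‖W t‖ : ℂ) - ‖x‖ * (c t + s t * Complex.I) =
          ((‖W t‖ - ‖x‖ * c t : ℝ) : ℂ) + ((-(‖x‖ * s t) : ℝ) : ℂ) * Complex.I := by
        push_cast
        ring
      rw [e3, ← Complex.normSq_eq_norm_sq, Complex.normSq_add_mul_I]
      have e4 : c t * (2 * ‖W t‖ * ‖x‖) = ‖W t‖ ^ 2 + ‖x‖ ^ 2 - ‖P‖ ^ 2 := by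
        change (‖W t‖ ^ 2 + ‖x‖ ^ 2 - ‖P‖ ^ 2) / (2 * ‖W t‖ * ‖x‖) * (2 * ‖W t‖ * ‖x‖) = _
        field_simp
      have e5 := hcs t ht
      linear_combination ‖x‖ ^ 2 * e5 - e4
    have e3 : ‖W t - α t * x‖ ^ 2 = ‖P‖ ^ 2 := by
      rw [e1, norm_mul, norm_div, Complex.norm_real, norm_norm, div_self h1.ne', one_mul, e2]
    exact (pow_left_inj₀ (norm_nonneg _) hP'.le two_ne_zero).1 e3
  have h00 : (0 : ℝ) ∈ Icc (0 : ℝ) 1 := ⟨le_refl _, zero_le_one⟩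
  -- the initial value
  have hα0 : α 0 = 1 := by
    have h1 := hWp 0 h00
    have h1' : (‖W 0‖ : ℂ) ≠ 0 := by exact_mod_cast h1.ne'
    have h2' : (‖x‖ : ℂ) ≠ 0 := by exact_mod_cast hx'.ne'
    have e1 : ‖P‖ ^ 2 = ‖W 0‖ ^ 2 + ‖x‖ ^ 2 - 2 * (conj (W 0) * x).re := by
      have e2 : P = W 0 - x := by rw [h0]; ring
      rw [e2, ← Complex.normSq_eq_norm_sq, ← Complex.normSq_eq_norm_sq, ← Complex.normSq_eq_norm_sq,
        Complex.normSq_apply, Complex.normSq_apply, Complex.normSq_apply, Complex.mul_re,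
        Complex.conj_re, Complex.conj_im, Complex.sub_re, Complex.sub_im]
      ring
    have e3 : c 0 = (conj (W 0) * x).re / (‖W 0‖ * ‖x‖) := by
      change (‖W 0‖ ^ 2 + ‖x‖ ^ 2 - ‖P‖ ^ 2) / (2 * ‖W 0‖ * ‖x‖) = _
      rw [e1]
      field_simp
      ring
    have e4 : s 0 = (conj (W 0) * x).im / (‖W 0‖ * ‖x‖) := by
      change ε * √(1 - c 0 ^ 2) = _
      have e5 : 1 - c 0 ^ 2 = ((conj (W 0) * x).im / (‖W 0‖ * ‖x‖)) ^ 2 := by
        rw [e3]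
        have e6 : (conj (W 0) * x).re ^ 2 + (conj (W 0) * x).im ^ 2 = (‖W 0‖ * ‖x‖) ^ 2 := by
          have e7 : ‖conj (W 0) * x‖ ^ 2 = (‖W 0‖ * ‖x‖) ^ 2 := by
            rw [norm_mul, RCLike.norm_conj]
          rw [← e7, ← Complex.normSq_eq_norm_sq, Complex.normSq_apply]
          ring
        field_simp
        linear_combination -e6
      rw [e5, Real.sqrt_sq_eq_abs, abs_div, abs_of_pos (by positivity : 0 < ‖W 0‖ * ‖x‖),
        ← mul_div_assoc, hε']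
    have e5 : (c 0 : ℂ) + s 0 * Complex.I = conj (W 0) * x / (‖W 0‖ * ‖x‖) := by
      rw [e3, e4]
      push_cast
      rw [div_mul_eq_mul_div, ← add_div, Complex.re_add_im]
    change ((‖x‖ : ℂ) / x) * (W 0 / ‖W 0‖) * (c 0 + s 0 * Complex.I) = 1
    rw [e5]
    have e6 : W 0 * conj (W 0) = (‖W 0‖ : ℂ) ^ 2 := by
      rw [Complex.mul_conj, Complex.normSq_eq_norm_sq]
      push_cast
      rfl
    field_simp
    linear_combination e6
  refine ⟨α, fun t => (W t - α t * x) / P, hαc, ?_, hα0, ?_, hαn, ?_, ?_⟩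
  · exact (hc.sub (hαc.mul continuousOn_const)).div_const P
  · change (W 0 - α 0 * x) / P = 1
    rw [hα0, h0]
    field_simp
    ring
  · intro t ht
    change ‖(W t - α t * x) / P‖ = 1
    rw [norm_div, hβn t ht, div_self hP'.ne']
  · intro t _
    change α t * x + (W t - α t * x) / P * P = W t
    field_simp
    ring

end Pool.Agent.Lib.MP_dd2281_co
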