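import Mathlib
import Pool.Agent.Lib.MP_dd2281_co.Tri

/-!
# MP_dd2281_co: moving four vectors with sum zero
-/

set_option autoImplicit false

namespace Pool.Agent.Lib.MP_dd2281_co

open Set ComplexConjugate

/-- The square of the length of `v + exp (i s) w`. -/
noncomputable def fl (v w : ℂ) (s : ℝ) : ℝ := ‖v + Complex.exp (s * Complex.I) * w‖ ^ 2

theorem fl_eq (v w : ℂ) (s : ℝ) : fl v w s = ‖v‖ ^ 2 + ‖w‖ ^ 2 +
    2 * ((conj v * w).re * Real.cos s - (conj v * w).im * Real.sin s) := by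
  unfold fl
  rw [← Complex.normSq_eq_norm_sq, ← Complex.normSq_eq_norm_sq, ← Complex.normSq_eq_norm_sq]
  simp only [Complex.normSq_apply, Complex.add_re, Complex.add_im, Complex.mul_re, Complex.mul_im,
    Complex.exp_ofReal_mul_I_re, Complex.exp_ofReal_mul_I_im, Complex.conj_re, Complex.conj_im]
  have h := Real.sin_sq_add_cos_sq s
  linear_combination (w.re ^ 2 + w.im ^ 2) * h

theorem fl_cont (v w : ℂ) : Continuous (fl v w) := by
  unfold fl
  fun_prop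

private theorem side {a b : ℝ} (hb : 0 < b) : ∃ δ : ℝ, 0 < δ ∧ ∀ s ∈ Icc (0 : ℝ) δ,
    |a| * (1 - Real.cos s) ≤ b * Real.sin s := by
  refine ⟨min 1 (b / (|a| + 1)), lt_min one_pos (by positivity), ?_⟩
  intro s hs
  obtain ⟨h0, h1⟩ := hs
  have h2 : s ≤ 1 := h1.trans (min_le_left _ _)
  have h3 : s ≤ b / (|a| + 1) := h1.trans (min_le_right _ _)
  rw [le_div_iff₀ (by positivity)] at h3
  have h4 := Real.one_sub_sq_div_two_le_cos (x := s)
  have h5 : 3 / 4 * s ≤ Real.sin s := by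
    rcases h0.eq_or_lt with h | h
    · rw [← h, Real.sin_zero, mul_zero]
    · have := Real.sin_gt_sub_cube h
      nlinarith [mul_pos h h, mul_nonneg h.le (sub_nonneg.2 h2)]
  have ha := abs_nonneg a
  have h6 : |a| * (1 - Real.cos s) ≤ |a| * (s ^ 2 / 2) := mul_le_mul_of_nonneg_left (by linarith) ha
  have h7 : |a| * (s ^ 2 / 2) ≤ b * (s / 2) := by
    have : |a| * s ≤ b := by nlinarith
    nlinarith
  have h8 : b * (s / 2) ≤ b * Real.sin s := mul_le_mul_of_nonneg_left (by linarith) hb.le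
  linarith

theorem fl_mono {v w : ℂ} (hb : (conj v * w).im ≠ 0) (τ : ℝ) (hτ : τ = 1 ∨ τ = -1) :
    ∃ σ : ℝ, (σ = 1 ∨ σ = -1) ∧ ∃ δ : ℝ, 0 < δ ∧ ∀ s ∈ Icc (0 : ℝ) δ,
      τ * fl v w (σ * s) ≤ τ * fl v w 0 := by
  set a := (conj v * w).re with ha
  set b := (conj v * w).im with hb'
  obtain ⟨σ, hσ, hσb⟩ : ∃ σ : ℝ, (σ = 1 ∨ σ = -1) ∧ 0 < τ * (σ * b) := by
    rcases lt_or_gt_of_ne hb with h | h
    · rcases hτ with rfl | rfl
      · exact ⟨-1, Or.inr rfl, by linarith⟩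
      · exact ⟨1, Or.inl rfl, by linarith⟩
    · rcases hτ with rfl | rfl
      · exact ⟨1, Or.inl rfl, by linarith⟩
      · exact ⟨-1, Or.inr rfl, by linarith⟩
  obtain ⟨δ, hδ, hs⟩ := side (a := a) hσb
  refine ⟨σ, hσ, δ, hδ, fun s h => ?_⟩
  have h1 := hs s h
  rw [fl_eq, fl_eq, ← ha, ← hb', Real.cos_zero, Real.sin_zero]
  have h2 : Real.cos (σ * s) = Real.cos s := by
    rcases hσ with rfl | rfl
    · rw [one_mul]
    · rw [neg_one_mul, Real.cos_neg]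
  have h3 : Real.sin (σ * s) = σ * Real.sin s := by
    rcases hσ with rfl | rfl
    · rw [one_mul, one_mul]
    · rw [neg_one_mul, Real.sin_neg, neg_one_mul]
  rw [h2, h3]
  have h4 : 0 ≤ 1 - Real.cos s := by linarith [Real.cos_le_one s]
  have h5 : -(τ * a * (1 - Real.cos s)) ≤ |a| * (1 - Real.cos s) := by
    have : -(τ * a) ≤ |a| := by
      rcases hτ with rfl | rfl
      · linarith [neg_abs_le a]
      · linarith [le_abs_self a]
    nlinarith
  nlinarith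

theorem move {v w x P : ℂ} (hx : x ≠ 0) (hP : P ≠ 0) (hs : v + w + x + P = 0) (hR : v + w ≠ 0)
    (h : (conj x * P).im ≠ 0 ∨ (conj v * w).im ≠ 0) :
    ∃ θ : ℝ, Real.sin θ ≠ 0 ∧ ∃ α β : ℝ → ℂ, ContinuousOn α (Icc 0 1) ∧
      ContinuousOn β (Icc 0 1) ∧ α 0 = 1 ∧ β 0 = 1 ∧
      (∀ t ∈ Icc (0 : ℝ) 1, ‖α t‖ = 1) ∧ (∀ t ∈ Icc (0 : ℝ) 1, ‖β t‖ = 1) ∧
      ∀ t ∈ Icc (0 : ℝ) 1, v + Complex.exp ((θ * t : ℝ) * Complex.I) * w + α t * x + β t * P = 0 := by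
  have hx' : 0 < ‖x‖ := norm_pos_iff.2 hx
  have hP' : 0 < ‖P‖ := norm_pos_iff.2 hP
  have hf0 : fl v w 0 = ‖x + P‖ ^ 2 := by
    unfold fl
    rw [Complex.ofReal_zero, zero_mul, Complex.exp_zero, one_mul, ← norm_neg]
    congr 2
    linear_combination -hs
  have hxP : ‖x + P‖ ^ 2 = ‖x‖ ^ 2 + ‖P‖ ^ 2 + 2 * (conj x * P).re := by
    rw [← Complex.normSq_eq_norm_sq, ← Complex.normSq_eq_norm_sq, ← Complex.normSq_eq_norm_sq]
    simp only [Complex.normSq_apply, Complex.add_re, Complex.add_im, Complex.mul_re,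
      Complex.conj_re, Complex.conj_im]
    ring
  have hri : (conj x * P).re ^ 2 + (conj x * P).im ^ 2 = (‖x‖ * ‖P‖) ^ 2 := by
    have e7 : ‖conj x * P‖ ^ 2 = (‖x‖ * ‖P‖) ^ 2 := by
      rw [norm_mul, RCLike.norm_conj]
    rw [← e7, ← Complex.normSq_eq_norm_sq, Complex.normSq_apply]
    ring
  have hxp : 0 < ‖x‖ * ‖P‖ := mul_pos hx' hP'
  set L : ℝ := (‖x‖ - ‖P‖) ^ 2 with hL
  set U : ℝ := (‖x‖ + ‖P‖) ^ 2 with hU
  have hcont := fl_cont v w
  -- continuity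
  have near : ∀ (p : ℝ → Prop), (∀ᶠ s in nhds (0 : ℝ), p s) → ∃ δ : ℝ, 0 < δ ∧
      ∀ σ : ℝ, (σ = 1 ∨ σ = -1) → ∀ s ∈ Icc (0 : ℝ) δ, p (σ * s) := by
    intro p hp
    obtain ⟨ε, hε, h1⟩ := Metric.eventually_nhds_iff.1 hp
    refine ⟨ε / 2, by linarith, fun σ hσ s hs => h1 ?_⟩
    rw [Real.dist_eq, sub_zero, abs_mul]
    have : |σ| = 1 := by
      rcases hσ with rfl | rfl
      · exact abs_one
      · rw [abs_neg, abs_one]
    rw [this, one_mul, abs_of_nonneg hs.1]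
    linarith [hs.2]
  have hlow : L < fl v w 0 → ∃ δ : ℝ, 0 < δ ∧ ∀ σ : ℝ, (σ = 1 ∨ σ = -1) →
      ∀ s ∈ Icc (0 : ℝ) δ, L ≤ fl v w (σ * s) := fun h1 =>
    near _ ((hcont.tendsto 0).eventually (eventually_ge_nhds h1) |>.mono fun s hs => hs)
  have hupp : fl v w 0 < U → ∃ δ : ℝ, 0 < δ ∧ ∀ σ : ℝ, (σ = 1 ∨ σ = -1) →
      ∀ s ∈ Icc (0 : ℝ) δ, fl v w (σ * s) ≤ U := fun h1 =>
    near _ ((hcont.tendsto 0).eventually (eventually_le_nhds h1) |>.mono fun s hs => hs)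
  have hnz : ∃ δ : ℝ, 0 < δ ∧ ∀ σ : ℝ, (σ = 1 ∨ σ = -1) →
      ∀ s ∈ Icc (0 : ℝ) δ, 0 < fl v w (σ * s) := by
    have h1 : 0 < fl v w 0 := by
      unfold fl
      rw [Complex.ofReal_zero, zero_mul, Complex.exp_zero, one_mul]
      have := norm_pos_iff.2 hR
      positivity
    exact near _ ((hcont.tendsto 0).eventually (eventually_gt_nhds h1))
  have key : ∃ σ : ℝ, (σ = 1 ∨ σ = -1) ∧ ∃ δ : ℝ, 0 < δ ∧ ∀ s ∈ Icc (0 : ℝ) δ,
      L ≤ fl v w (σ * s) ∧ fl v w (σ * s) ≤ U := by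
    by_cases h1 : (conj x * P).im = 0
    · have hb := h.resolve_left (fun h2 => h2 h1)
      rw [h1] at hri
      have h2 : ((conj x * P).re - ‖x‖ * ‖P‖) * ((conj x * P).re + ‖x‖ * ‖P‖) = 0 := by
        linear_combination hri
      rcases mul_eq_zero.1 h2 with h3 | h3
      · -- maximal
        have h4 : fl v w 0 = U := by
          rw [hf0, hxP, hU]
          linear_combination 2 * h3
        obtain ⟨δ1, hδ1, h5⟩ := hlow (by rw [h4, hL, hU]; nlinarith)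
        obtain ⟨σ, hσ, δ2, hδ2, h6⟩ := fl_mono hb 1 (Or.inl rfl)
        refine ⟨σ, hσ, min δ1 δ2, lt_min hδ1 hδ2, fun s hs => ⟨?_, ?_⟩⟩
        · exact h5 σ hσ s ⟨hs.1, hs.2.trans (min_le_left _ _)⟩
        · have := h6 s ⟨hs.1, hs.2.trans (min_le_right _ _)⟩
          rw [one_mul, one_mul, h4] at this
          exact this
      · have h4 : fl v w 0 = L := by
          rw [hf0, hxP, hL]
          linear_combination 2 * h3
        obtain ⟨δ1, hδ1, h5⟩ := hupp (by rw [h4, hL, hU]; nlinarith)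
        obtain ⟨σ, hσ, δ2, hδ2, h6⟩ := fl_mono hb (-1) (Or.inr rfl)
        refine ⟨σ, hσ, min δ1 δ2, lt_min hδ1 hδ2, fun s hs => ⟨?_, ?_⟩⟩
        · have := h6 s ⟨hs.1, hs.2.trans (min_le_right _ _)⟩
          rw [h4] at this
          linarith
        · exact h5 σ hσ s ⟨hs.1, hs.2.trans (min_le_left _ _)⟩
    · have h2 : 0 < (conj x * P).im ^ 2 := by positivity
      have h3 : (conj x * P).re < ‖x‖ * ‖P‖ := by nlinarith
      have h4 : -(‖x‖ * ‖P‖) < (conj x * P).re := by nlinarith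
      obtain ⟨δ1, hδ1, h5⟩ := hlow (by rw [hf0, hxP, hL]; nlinarith)
      obtain ⟨δ2, hδ2, h6⟩ := hupp (by rw [hf0, hxP, hU]; nlinarith)
      refine ⟨1, Or.inl rfl, min δ1 δ2, lt_min hδ1 hδ2, fun s hs => ⟨?_, ?_⟩⟩
      · exact h5 1 (Or.inl rfl) s ⟨hs.1, hs.2.trans (min_le_left _ _)⟩
      · exact h6 1 (Or.inl rfl) s ⟨hs.1, hs.2.trans (min_le_right _ _)⟩
  obtain ⟨σ, hσ, δ, hδ, h1⟩ := key
  obtain ⟨δ', hδ', h2⟩ := hnz
  obtain ⟨η, hη0, hη1, hη2, hη3⟩ : ∃ η : ℝ, 0 < η ∧ η ≤ δ ∧ η ≤ δ' ∧ η ≤ 1 :=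
    ⟨min (min δ δ') 1, lt_min (lt_min hδ hδ') one_pos,
      (min_le_left _ _).trans (min_le_left _ _), (min_le_left _ _).trans (min_le_right _ _),
      min_le_right _ _⟩
  have hin : ∀ t ∈ Icc (0 : ℝ) 1, η * t ∈ Icc (0 : ℝ) δ ∧ η * t ∈ Icc (0 : ℝ) δ' := by
    intro t ht
    have h3 : 0 ≤ η * t := mul_nonneg hη0.le ht.1
    have h4 : η * t ≤ η := by nlinarith [ht.2]
    exact ⟨⟨h3, h4.trans hη1⟩, ⟨h3, h4.trans hη2⟩⟩
  let W : ℝ → ℂ := fun t => -(v + Complex.exp ((σ * η * t : ℝ) * Complex.I) * w)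
  have hWn : ∀ t, ‖W t‖ ^ 2 = fl v w (σ * (η * t)) := by
    intro t
    change ‖-(v + Complex.exp ((σ * η * t : ℝ) * Complex.I) * w)‖ ^ 2 = _
    rw [norm_neg, mul_assoc]
    rfl
  obtain ⟨α, β, hα, hβ, hα0, hβ0, hα1, hβ1, hab⟩ := tri_flex hx hP W
    (by
      have : Continuous W := by
        change Continuous fun t : ℝ => -(v + Complex.exp ((σ * η * t : ℝ) * Complex.I) * w)
        fun_prop
      exact this.continuousOn)
    (by
      change -(v + Complex.exp ((σ * η * 0 : ℝ) * Complex.I) * w) = x + P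
      rw [mul_zero, Complex.ofReal_zero, zero_mul, Complex.exp_zero, one_mul]
      linear_combination -hs)
    (fun t ht h3 => by
      have h4 := h2 σ hσ (η * t) (hin t ht).2
      rw [← hWn, h3, norm_zero] at h4
      norm_num at h4)
    (fun t ht => by
      rw [hWn]
      exact (h1 (η * t) (hin t ht).1).1)
    (fun t ht => by
      rw [hWn]
      exact (h1 (η * t) (hin t ht).1).2)
  refine ⟨σ * η, ?_, α, β, hα, hβ, hα0, hβ0, hα1, hβ1, ?_⟩
  · have h3 : 0 < Real.sin η := Real.sin_pos_of_pos_of_lt_pi hη0 (by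
      have := Real.pi_gt_three
      linarith)
    rcases hσ with rfl | rfl
    · rw [one_mul]
      exact h3.ne'
    · rw [neg_one_mul, Real.sin_neg]
      exact (neg_neg_of_pos h3).ne
  · intro t ht
    have h3 := hab t ht
    change α t * x + β t * P = -(v + Complex.exp ((σ * η * t : ℝ) * Complex.I) * w) at h3
    linear_combination h3

end Pool.Agent.Lib.MP_dd2281_co
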