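import Mathlib
import Pool.Agent.Lib.MP_dd2281_co.Flex

/-!
# MP_dd2281_co: closed walks of length at most four
-/

set_option autoImplicit false

namespace Pool.Agent.Lib.MP_dd2281_co

open ComplexConjugate

theorem conj_unit {z : ℂ} (h : ‖z‖ = 1) : z * conj z = 1 := by
  rw [Complex.mul_conj, Complex.normSq_eq_norm_sq, h]
  norm_num

/-- Three unit vectors with sum zero have the same cube. -/
theorem three {a b c : ℂ} (ha : ‖a‖ = 1) (hb : ‖b‖ = 1) (hc : ‖c‖ = 1) (h : a + b + c = 0) :
    a ^ 3 = b ^ 3 ∧ b ^ 3 = c ^ 3 := by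
  have h1 := conj_unit ha
  have h2 := conj_unit hb
  have h3 := conj_unit hc
  have h4 : conj a + conj b + conj c = 0 := by
    have := congrArg conj h
    rw [map_add, map_add, map_zero] at this
    exact this
  have h5 : a * b + b * c + c * a = 0 := by
    have e : a * b + b * c + c * a = a * b * c * (conj a + conj b + conj c) := by
      linear_combination (-(b * c)) * h1 + (-(a * c)) * h2 + (-(a * b)) * h3
    rw [e, h4, mul_zero]
  have hk : ∀ x : ℂ, (x - a) * (x - b) * (x - c) = x ^ 3 - a * b * c := by
    intro x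
    linear_combination (-x ^ 2) * h + x * h5
  have e1 := hk a
  have e2 := hk b
  have e3 := hk c
  constructor
  · linear_combination e2 - e1
  · linear_combination e3 - e2

/-- Four unit vectors with sum zero cancel in pairs. -/
theorem four {a b c d : ℂ} (ha : ‖a‖ = 1) (hb : ‖b‖ = 1) (hc : ‖c‖ = 1) (hd : ‖d‖ = 1)
    (h : a + b + c + d = 0) :
    (b = -a ∧ d = -c) ∨ (c = -a ∧ d = -b) ∨ (d = -a ∧ c = -b) := by
  have h1 := conj_unit ha
  have h2 := conj_unit hb
  have h3 := conj_unit hc
  have h4 := conj_unit hd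
  have h5 : conj a + conj b + conj c + conj d = 0 := by
    have := congrArg conj h
    rw [map_add, map_add, map_add, map_zero] at this
    exact this
  by_cases hab : a + b = 0
  · left
    constructor
    · linear_combination hab
    · linear_combination h - hab
  · right
    have h6 : c * d * (a + b) + a * b * (c + d) = 0 := by
      have e : c * d * (a + b) + a * b * (c + d) =
          a * b * c * d * (conj a + conj b + conj c + conj d) := by
        linear_combination (-(b * c * d)) * h1 + (-(a * c * d)) * h2 + (-(a * b * d)) * h3 +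
          (-(a * b * c)) * h4
      rw [e, h5, mul_zero]
    have h7 : (c * d - a * b) * (a + b) = 0 := by
      linear_combination h6 - a * b * h
    have h8 : c * d - a * b = 0 := (mul_eq_zero.1 h7).resolve_right hab
    have h9 : (a + c) * (a + d) = 0 := by
      linear_combination a * h + h8
    rcases mul_eq_zero.1 h9 with h10 | h10
    · left
      constructor
      · linear_combination h10
      · linear_combination h - h10
    · right
      constructor
      · linear_combination h10
      · linear_combination h - h10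

variable {V : Type} {G : SimpleGraph V}

/-- The rotated rods: the rod `b - a` is multiplied by `F` of its class. -/
noncomputable def rot (p : V → ℂ) (e : ℂ) (M : ℕ) (F : ℂ → ℂ) (u v : V) : ℂ :=
  F (((p v - p u) / e) ^ M) * (p v - p u)

theorem rot_anti (p : V → ℂ) (e : ℂ) {M : ℕ} (hM : Even M) (F : ℂ → ℂ) (u v : V) :
    rot p e M F v u = -rot p e M F u v := by
  unfold rot
  have h : (p u - p v) / e = -((p v - p u) / e) := by ring
  rw [h, hM.neg_pow]
  ring

private theorem cls_eq {M : ℕ} (hM : 3 ∣ M) {e a b : ℂ} (h : a ^ 3 = b ^ 3) :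
    (a / e) ^ M = (b / e) ^ M := by
  obtain ⟨k, rfl⟩ := hM
  simp only [div_pow, pow_mul, h]

theorem rot_short (p : V → ℂ) (hp : ∀ u v, G.Adj u v → ‖p v - p u‖ = 1) (e : ℂ) {M : ℕ}
    (hM : Even M) (hM3 : 3 ∣ M) (F : ℂ → ℂ) {v : V} (W : G.Walk v v) (hW : W.length ≤ 4) :
    circ (rot p e M F) W = 0 := by
  have hneg : ∀ x : ℂ, (-x / e) ^ M = (x / e) ^ M := by
    intro x
    rw [neg_div, hM.neg_pow]
  match W, hW with
  | .nil, _ => exact circ_nil _ _
  | .cons (v := a) h1 .nil, _ => exact absurd h1 (G.loopless.irrefl _)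
  | .cons (v := a) h1 (.cons h2 .nil), _ =>
    rw [circ_cons, circ_cons, circ_nil, rot_anti p e hM F v a]
    ring
  | .cons (v := a) h1 (.cons (v := b) h2 (.cons h3 .nil)), _ =>
    have hs : (p a - p v) + (p b - p a) + (p v - p b) = 0 := by ring
    obtain ⟨e1, e2⟩ := three (hp _ _ h1) (hp _ _ h2) (hp _ _ h3) hs
    rw [circ_cons, circ_cons, circ_cons, circ_nil]
    unfold rot
    rw [cls_eq hM3 e1, cls_eq hM3 e2]
    linear_combination F (((p v - p b) / e) ^ M) * hs
  | .cons (v := a) h1 (.cons (v := b) h2 (.cons (v := c) h3 (.cons h4 .nil))), _ =>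
    have hs : (p a - p v) + (p b - p a) + (p c - p b) + (p v - p c) = 0 := by ring
    rw [circ_cons, circ_cons, circ_cons, circ_cons, circ_nil]
    unfold rot
    rcases four (hp _ _ h1) (hp _ _ h2) (hp _ _ h3) (hp _ _ h4) hs with ⟨e1, e2⟩ | ⟨e1, e2⟩ |
      ⟨e1, e2⟩
    · rw [e1, e2, hneg, hneg]
      ring
    · rw [e1, e2, hneg, hneg]
      ring
    · rw [e1, e2, hneg, hneg]
      ring
  | .cons _ (.cons _ (.cons _ (.cons _ (.cons _ _)))), hW =>
    simp only [SimpleGraph.Walk.length_cons] at hW
    omega

end Pool.Agent.Lib.MP_dd2281_co
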