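import Mathlib
import Pool.Agent.Lib.MP_dd2281_co.Short
import Pool.Agent.Lib.MP_dd2281_co.Cyc

/-!
# MP_dd2281_co: rods at rational angles do not make the square rigid
-/

set_option autoImplicit false

namespace Pool.Agent.Lib.MP_dd2281_co

open Set

/-- The diagonal of the rhombus. -/
theorem diag_sq (ε : ℝ) (hε : ε = 1 ∨ ε = -1) (s t : ℝ) :
    Complex.normSq (Complex.exp (s * Complex.I) + Complex.exp (t * Complex.I) * (ε * Complex.I)) =
      2 - 2 * ε * Real.sin (t - s) := by
  rw [Complex.normSq_apply]
  simp only [Complex.add_re, Complex.add_im, Complex.mul_re, Complex.mul_im, Complex.ofReal_re,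
    Complex.ofReal_im, Complex.I_re, Complex.I_im, Complex.exp_ofReal_mul_I_re,
    Complex.exp_ofReal_mul_I_im]
  rw [Real.sin_sub]
  have h1 := Real.sin_sq_add_cos_sq s
  have h2 := Real.sin_sq_add_cos_sq t
  rcases hε with rfl | rfl
  · linear_combination h1 + h2
  · linear_combination h1 + h2

variable {V : Type} {G : SimpleGraph V}

open Classical in
theorem one [Finite V] (p : V → ℂ) (hp : ∀ u v, G.Adj u v → ‖p v - p u‖ = 1) {A B C : V}
    (hAB : G.Adj A B) (hBC : G.Adj B C) (ε : ℝ) (hε : ε = 1 ∨ ε = -1)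
    (hC : p C - p B = ε * Complex.I * (p B - p A))
    (hS : ∀ g : V → V → ℂ, (∀ u v, g v u = -g u v) →
      (∀ v (W : G.Walk v v), (W.length ≤ 4 ∨ ∀ d ∈ W.darts, ∀ d' ∈ W.darts, ∃ n : ℕ, 0 < n ∧
        ((p d'.snd - p d'.fst) / (p d.snd - p d.fst)) ^ n = 1) → circ g W = 0) →
      ∀ W : G.Walk A A, circ g W = 0) :
    ∃ m : ℝ → V → ℂ, ((∀ v, ContinuousOn (fun t => m t v) (Icc 0 1)) ∧ m 0 = p ∧
      ∀ t ∈ Icc (0 : ℝ) 1, ∀ u v, G.Adj u v → ‖m t v - m t u‖ = 1) ∧
      ‖m 1 A - m 1 C‖ ≠ ‖p A - p C‖ := by
  have := Fintype.ofFinite V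
  set e : ℂ := p B - p A with he
  have hen : ‖e‖ = 1 := hp A B hAB
  have he0 : e ≠ 0 := by
    intro h
    rw [h, norm_zero] at hen
    exact zero_ne_one hen
  -- a common order
  have hn : ∀ u v : V, ∃ n : ℕ, 0 < n ∧ ((∃ k : ℕ, 0 < k ∧ ((p v - p u) / e) ^ k = 1) →
      ((p v - p u) / e) ^ n = 1) := by
    intro u v
    by_cases h : ∃ k : ℕ, 0 < k ∧ ((p v - p u) / e) ^ k = 1
    · obtain ⟨k, hk, h1⟩ := h
      exact ⟨k, hk, fun _ => h1⟩
    · exact ⟨1, one_pos, fun h' => absurd h' h⟩
  choose n hn0 hn1 using hn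
  have hN : 12 * ∏ u, ∏ v, n u v ≠ 0 := by
    refine mul_ne_zero (by norm_num) ?_
    exact Finset.prod_ne_zero_iff.2 fun u _ => Finset.prod_ne_zero_iff.2 fun v _ =>
      (hn0 u v).ne'
  obtain ⟨a, m, hm, hNm⟩ := Nat.exists_eq_two_pow_mul_odd hN
  have hm0 : 0 < m := hm.pos
  have h3m : 3 ∣ m := by
    have h1 : 3 ∣ 2 ^ a * m := by
      rw [← hNm]
      exact dvd_mul_of_dvd_left (by norm_num) _
    exact (Nat.Coprime.dvd_mul_left (Nat.Coprime.pow_right a (by norm_num))).1 h1
  have ha : 2 ≤ a := by
    have h1 : 2 ^ 2 ∣ 2 ^ a * m := by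
      rw [← hNm]
      exact dvd_mul_of_dvd_left (by norm_num) _
    have h2 : 2 ^ 2 ∣ 2 ^ a := by
      have hc : Nat.Coprime (2 ^ 2) m := Nat.Coprime.pow_left 2 (Nat.coprime_two_left.2 hm)
      exact (Nat.Coprime.dvd_mul_right hc).1 h1
    exact (Nat.pow_dvd_pow_iff_le_right (by norm_num)).1 h2
  have hord : ∀ u v : V, (∃ k : ℕ, 0 < k ∧ ((p v - p u) / e) ^ k = 1) →
      ((p v - p u) / e) ^ (2 ^ ((a - 1) + 1) * m) = 1 := by
    intro u v h
    have h1 := hn1 u v h
    have h2 : n u v ∣ 2 ^ (a - 1 + 1) * m := by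
      have e1 : a - 1 + 1 = a := by omega
      rw [e1, ← hNm]
      refine dvd_mul_of_dvd_right ?_ _
      exact (Finset.dvd_prod_of_mem (fun v => n u v) (Finset.mem_univ v)).trans
        (Finset.dvd_prod_of_mem (fun u => ∏ v, n u v) (Finset.mem_univ u))
    obtain ⟨k, hk⟩ := h2
    rw [hk, pow_mul, h1, one_pow]
  have hME : Even (2 * m) := even_two_mul m
  have hM3 : 3 ∣ 2 * m := dvd_mul_of_dvd_right h3m _
  -- the rotation
  let F : ℝ → ℂ → ℂ := fun t c => if c = -1 then Complex.exp (t * Complex.I) else 1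
  have hF1 : ∀ t c, ‖F t c‖ = 1 := by
    intro t c
    change ‖if c = -1 then Complex.exp (t * Complex.I) else (1 : ℂ)‖ = 1
    split_ifs
    · exact Complex.norm_exp_ofReal_mul_I t
    · exact norm_one
  have hF0 : ∀ c, F 0 c = 1 := by
    intro c
    change (if c = -1 then Complex.exp ((0 : ℝ) * Complex.I) else (1 : ℂ)) = 1
    simp
  have hFc : ∀ c, Continuous fun t => F t c := by
    intro c
    change Continuous fun t : ℝ => if c = -1 then Complex.exp (t * Complex.I) else (1 : ℂ)
    split_ifs
    · fun_prop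
    · exact continuous_const
  obtain ⟨q, hq, hq'⟩ := flex p hp (fun t => rot p e (2 * m) (F t))
    (fun t u v => rot_anti p e hME (F t) u v)
    (fun u v => by
      change F 0 _ * (p v - p u) = _
      rw [hF0, one_mul])
    (fun t _ u v huv => by
      change ‖F t _ * (p v - p u)‖ = 1
      rw [norm_mul, hF1, hp u v huv, one_mul])
    (fun u v => by
      change ContinuousOn (fun t => F t _ * (p v - p u)) _
      exact ((hFc _).mul continuous_const).continuousOn)
    A (fun t _ => hS (rot p e (2 * m) (F t)) (rot_anti p e hME (F t)) (by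
      intro v W hW
      rcases hW with hW | hW
      · exact rot_short p hp e hME hM3 (F t) W hW
      · have hdn : ∀ d : G.Dart, p d.snd - p d.fst ≠ 0 := by
          intro d h
          have h1 := hp _ _ d.adj
          rw [h, norm_zero] at h1
          exact zero_ne_one h1
        by_cases hex : ∃ d ∈ W.darts, ∃ k : ℕ, 0 < k ∧ ((p d.snd - p d.fst) / e) ^ k = 1
        swap
        · have h1 : circ (rot p e (2 * m) (F t)) W = circ (fun a b => p b - p a) W := by
            unfold circ
            congr 1
            refine List.map_congr_left fun d hd => ?_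
            change (if ((p d.snd - p d.fst) / e) ^ (2 * m) = -1 then Complex.exp (t * Complex.I)
              else (1 : ℂ)) * _ = _
            rw [if_neg, one_mul]
            intro h2
            refine hex ⟨d, hd, 2 * m * 2, by positivity, ?_⟩
            rw [pow_mul, h2]
            norm_num
          rw [h1, circ_pot, sub_self]
        obtain ⟨d0, hd0, k0, hk0, hk1⟩ := hex
        have hW : ∀ d ∈ W.darts, ∃ n : ℕ, 0 < n ∧ ((p d.snd - p d.fst) / e) ^ n = 1 := by
          intro d hd
          obtain ⟨k, hk, h1⟩ := hW d0 hd0 d hd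
          refine ⟨k * k0, by positivity, ?_⟩
          have h2 : (p d.snd - p d.fst) / e =
              (p d.snd - p d.fst) / (p d0.snd - p d0.fst) * ((p d0.snd - p d0.fst) / e) := by
            have := hdn d0
            field_simp
          rw [h2, mul_pow, pow_mul, h1, one_pow, mul_comm k k0, pow_mul, hk1, one_pow, one_mul]
        set L : List ℂ := W.darts.map fun d => (p d.snd - p d.fst) / e with hL
        have h1 : L.sum = 0 := by
          have h2 : L.sum = circ (fun a b => p b - p a) W / e := by
            rw [hL]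
            unfold circ
            generalize W.darts = l
            induction l with
            | nil => simp
            | cons d l ih => rw [List.map_cons, List.sum_cons, ih, List.map_cons, List.sum_cons]; ring
          rw [h2, circ_pot, sub_self, zero_div]
        have h3 : ∀ z ∈ L, z ^ (2 ^ ((a - 1) + 1) * m) = 1 := by
          intro z hz
          obtain ⟨d, hd, rfl⟩ := List.mem_map.1 hz
          exact hord _ _ (hW d hd)
        have h4 := cls hm0 (a := a - 1) (by omega) L h3 h1
        have h5 : circ (rot p e (2 * m) (F t)) W = e * (L.sum + (Complex.exp (t * Complex.I) - 1) *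
            (L.map fun z => if z ^ (2 * m) = -1 then z else 0).sum) := by
          rw [hL]
          unfold circ rot
          generalize W.darts = l
          induction l with
          | nil => simp
          | cons d l ih =>
            rw [List.map_cons, List.sum_cons, ih, List.map_cons, List.sum_cons, List.map_cons,
              List.sum_cons]
            change (if ((p d.snd - p d.fst) / e) ^ (2 * m) = -1 then Complex.exp (t * Complex.I)
              else (1 : ℂ)) * _ + _ = _
            have h6 : p d.snd - p d.fst = e * ((p d.snd - p d.fst) / e) := by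
              field_simp
            by_cases h7 : ((p d.snd - p d.fst) / e) ^ (2 * m) = -1
            · rw [if_pos h7, if_pos h7]
              linear_combination (Complex.exp (t * Complex.I)) * h6
            · rw [if_neg h7, if_neg h7]
              linear_combination h6
        rw [h5, h1, h4]
        ring))
  refine ⟨q, hq, ?_⟩
  have h1 := hq' 1 ⟨zero_le_one, le_refl _⟩ C
    (SimpleGraph.Walk.cons hAB (SimpleGraph.Walk.cons hBC SimpleGraph.Walk.nil))
  rw [circ_cons, circ_cons, circ_nil, add_zero] at h1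
  have h2 : rot p e (2 * m) (F 1) A B = e := by
    change (if ((p B - p A) / e) ^ (2 * m) = -1 then Complex.exp ((1 : ℝ) * Complex.I)
      else (1 : ℂ)) * (p B - p A) = e
    rw [← he, div_self he0, one_pow, if_neg (by norm_num), one_mul]
  have h3 : rot p e (2 * m) (F 1) B C = Complex.exp ((1 : ℝ) * Complex.I) *
      (ε * Complex.I * e) := by
    change (if ((p C - p B) / e) ^ (2 * m) = -1 then Complex.exp ((1 : ℝ) * Complex.I)
      else (1 : ℂ)) * (p C - p B) = _
    rw [hC, mul_div_assoc, div_self he0, mul_one, pow_mul, mul_pow, Complex.I_sq]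
    have h4 : ((ε : ℂ) ^ 2 * -1) ^ m = -1 := by
      have : (ε : ℂ) ^ 2 = 1 := by
        rcases hε with rfl | rfl <;> norm_num
      rw [this, one_mul, hm.neg_one_pow]
    rw [h4, if_pos rfl]
  rw [h2, h3] at h1
  have h5 : ‖q 1 A - q 1 C‖ ^ 2 = 2 - 2 * ε * Real.sin (1 - 0) := by
    rw [← diag_sq ε hε 0 1, ← norm_neg, neg_sub, h1]
    have e1 : e + Complex.exp ((1 : ℝ) * Complex.I) * (ε * Complex.I * e) =
      e * (Complex.exp ((0 : ℝ) * Complex.I) + Complex.exp ((1 : ℝ) * Complex.I) *
        (ε * Complex.I)) := by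
      rw [Complex.ofReal_zero, zero_mul, Complex.exp_zero]
      ring
    rw [e1, norm_mul, hen, one_mul, Complex.normSq_eq_norm_sq]
  have h6 : ‖p A - p C‖ ^ 2 = 2 := by
    have e1 : p A - p C = -(e * (Complex.exp ((0 : ℝ) * Complex.I) +
        Complex.exp ((0 : ℝ) * Complex.I) * (ε * Complex.I))) := by
      rw [Complex.ofReal_zero, zero_mul, Complex.exp_zero]
      linear_combination (-1 : ℂ) * hC - he
    rw [e1, norm_neg, norm_mul, hen, one_mul, ← Complex.normSq_eq_norm_sq, diag_sq ε hε 0 0,
      sub_self, Real.sin_zero]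
    ring
  intro h7
  rw [h7, h6, sub_zero] at h5
  have h8 : 0 < Real.sin 1 := Real.sin_pos_of_pos_of_lt_pi one_pos (by
    have := Real.pi_gt_three
    linarith)
  rcases hε with rfl | rfl <;> linarith

end Pool.Agent.Lib.MP_dd2281_co
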