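import Mathlib
import Pool.Agent.Lib.MP_dd2281_co.Lat
import Pool.Agent.Lib.MP_dd2281_co.Move

/-!
# MP_dd2281_co: closed polygons with at most eight unit sides
-/

set_option autoImplicit false

namespace Pool.Agent.Lib.MP_dd2281_co

open Set ComplexConjugate
open scoped Classical

variable {n : ℕ} {z : Fin n → ℂ}

/-- The sum over the class `c`. -/
noncomputable def vc (z : Fin n → ℂ) (c : ℂ) : ℂ := ∑ i with z i ^ 6 = c, z i

/-- The number of elements of the class `c`. -/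
noncomputable def kc (z : Fin n → ℂ) (c : ℂ) : ℕ := (Finset.univ.filter fun i => z i ^ 6 = c).card

theorem cards (z : Fin n → ℂ) (S : Finset ℂ) : ∑ c ∈ S, kc z c ≤ n := by
  have h1 : ∑ c ∈ S, kc z c = (Finset.univ.filter fun i => z i ^ 6 ∈ S).card := by
    rw [Finset.card_eq_sum_card_fiberwise (f := fun i => z i ^ 6) (t := S)]
    · refine Finset.sum_congr rfl fun c hc => ?_
      unfold kc
      congr 1
      ext i
      simp only [Finset.mem_filter, Finset.mem_univ, true_and]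
      constructor
      · intro h
        exact ⟨h ▸ hc, h⟩
      · exact fun h => h.2
    · intro i hi
      exact (Finset.mem_filter.1 hi).2
  rw [h1]
  calc _ ≤ (Finset.univ : Finset (Fin n)).card := Finset.card_filter_le _ _
    _ = n := by rw [Finset.card_univ, Fintype.card_fin]

theorem exists_else (hs : ∑ i, z i = 0) (S : Finset ℂ) (h : ∑ c ∈ S, vc z c ≠ 0) :
    ∃ c, c ∉ S ∧ vc z c ≠ 0 := by
  by_contra hc
  push Not at hc
  apply h
  have h1 := Finset.sum_fiberwise_of_maps_to (s := Finset.univ)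
    (t := (Finset.univ.image fun i => z i ^ 6) ∪ S) (g := fun i => z i ^ 6)
    (fun i _ => Finset.mem_union_left _ (Finset.mem_image_of_mem _ (Finset.mem_univ i))) z
  rw [hs] at h1
  have h2 : ∑ c ∈ S, vc z c = ∑ c ∈ (Finset.univ.image fun i => z i ^ 6) ∪ S, vc z c :=
    Finset.sum_subset Finset.subset_union_right fun c _ hc' => hc c hc'
  rw [h2]
  exact h1

theorem repr_c (hz : ∀ i, ‖z i‖ = 1) {c : ℂ} (hv : vc z c ≠ 0) : ∃ z0 : ℂ, ‖z0‖ = 1 ∧ z0 ^ 6 = c ∧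
    ∃ x y : ℤ, vc z c = z0 * lam x y ∧ hx x y ≤ kc z c := by
  have h1 : (Finset.univ.filter fun i => z i ^ 6 = c).Nonempty := by
    by_contra h
    rw [Finset.not_nonempty_iff_eq_empty] at h
    apply hv
    unfold vc
    rw [h, Finset.sum_empty]
  obtain ⟨i, hi⟩ := h1
  have hi' := (Finset.mem_filter.1 hi).2
  have h0 : z i ≠ 0 := by
    intro h
    have := hz i
    rw [h, norm_zero] at this
    exact zero_ne_one this
  refine ⟨z i, hz i, hi', ?_⟩
  exact lat _ z h0 fun j hj => (Finset.mem_filter.1 hj).2.trans hi'.symm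

theorem repr_one (z : Fin n → ℂ) : ∃ x y : ℤ, vc z 1 = lam x y ∧ hx x y ≤ kc z 1 := by
  obtain ⟨x, y, h1, h2⟩ := lat (Finset.univ.filter fun i => z i ^ 6 = 1) z (z0 := 1) one_ne_zero
    fun j hj => by rw [(Finset.mem_filter.1 hj).2, one_pow]
  refine ⟨x, y, ?_, h2⟩
  rw [one_mul] at h1
  exact h1

theorem repr_neg (z : Fin n → ℂ) :
    ∃ x y : ℤ, vc z (-1) = Complex.I * lam x y ∧ hx x y ≤ kc z (-1) := by
  have hI : Complex.I ^ 6 = -1 := by
    have : Complex.I ^ 6 = (Complex.I ^ 2) ^ 3 := by ring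
    rw [this, Complex.I_sq]
    norm_num
  obtain ⟨x, y, h1, h2⟩ := lat (Finset.univ.filter fun i => z i ^ 6 = -1) z (z0 := Complex.I)
    Complex.I_ne_zero fun j hj => by rw [(Finset.mem_filter.1 hj).2, hI]
  exact ⟨x, y, h1, h2⟩

private theorem irr {N k : ℤ} (h : (N : ℝ) + √3 * k = 0) : k = 0 := by
  by_contra hk
  have h1 : Irrational √(3 : ℝ) := by
    have := Nat.Prime.irrational_sqrt (p := 3) (by norm_num)
    simpa using this
  apply h1
  refine ⟨(-N / k : ℚ), ?_⟩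
  have hk' : (k : ℝ) ≠ 0 := by exact_mod_cast hk
  push_cast
  rw [div_eq_iff hk']
  linarith

private theorem nf_nonneg (x y : ℤ) : 0 ≤ nf x y := by
  unfold nf
  nlinarith [sq_nonneg (x + y), sq_nonneg x, sq_nonneg y]

private theorem nf_zero {x y : ℤ} (h : nf x y = 0) : x = 0 ∧ y = 0 := by
  unfold nf at h
  constructor
  · nlinarith [sq_nonneg (x + 2 * y), sq_nonneg (2 * x + y), sq_nonneg x, sq_nonneg y]
  · nlinarith [sq_nonneg (x + 2 * y), sq_nonneg (2 * x + y), sq_nonneg x, sq_nonneg y]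

theorem vne (z : Fin n → ℂ) (h1 : vc z 1 ≠ 0) : vc z 1 + vc z (-1) ≠ 0 := by
  intro h
  obtain ⟨a, b, e1, -⟩ := repr_one z
  obtain ⟨c, d, e2, -⟩ := repr_neg z
  have h3 := lam_two_norm a b c d
  rw [← e1, ← e2, h, norm_zero] at h3
  have h4 : b * c - a * d = 0 := by
    refine irr (N := nf a b + nf c d) ?_
    push_cast at h3 ⊢
    linarith
  rw [h4] at h3
  have h5 : nf a b + nf c d = 0 := by
    have : ((nf a b + nf c d : ℤ) : ℝ) = 0 := by
      push_cast at h3 ⊢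
      linarith
    exact_mod_cast this
  have h6 : nf a b = 0 := by linarith [nf_nonneg a b, nf_nonneg c d]
  exact h1 (e1.trans (lam_zero_iff.2 (nf_zero h6)))

theorem tri_no (hn : n ≤ 8) (hz : ∀ i, ‖z i‖ = 1) (h1 : vc z 1 ≠ 0) (h2 : vc z (-1) ≠ 0) {X : ℂ}
    (hX1 : X ≠ 1) (hX2 : X ≠ -1) (hX : vc z X ≠ 0) (h : vc z 1 + vc z (-1) + vc z X = 0) :
    False := by
  obtain ⟨a, b, e1, k1⟩ := repr_one z
  obtain ⟨c, d, e2, k2⟩ := repr_neg z
  obtain ⟨z0, hz0, -, x, y, e3, k3⟩ := repr_c hz hX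
  have h3 := lam_two_norm a b c d
  have e4 : vc z 1 + vc z (-1) = -(z0 * lam x y) := by
    rw [← e3]
    linear_combination h
  rw [← e1, ← e2, e4, norm_neg, norm_mul, hz0, one_mul, lam_norm] at h3
  have h4 : b * c - a * d = 0 := by
    refine irr (N := nf a b + nf c d - nf x y) ?_
    push_cast at h3 ⊢
    linarith
  rw [h4] at h3
  have h5 : nf x y = nf a b + nf c d := by
    have : ((nf x y : ℤ) : ℝ) = ((nf a b + nf c d : ℤ) : ℝ) := by
      push_cast at h3 ⊢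
      linarith
    exact_mod_cast this
  have h6 := cards z {1, -1, X}
  have h7 : (1 : ℂ) ∉ ({-1, X} : Finset ℂ) := by
    rw [Finset.mem_insert, Finset.mem_singleton, not_or]
    exact ⟨by norm_num, hX1.symm⟩
  have h8 : (-1 : ℂ) ∉ ({X} : Finset ℂ) := by
    rw [Finset.mem_singleton]
    exact hX2.symm
  rw [Finset.sum_insert h7, Finset.sum_insert h8, Finset.sum_singleton] at h6
  have h9 : (kc z 1 : ℤ) + (kc z (-1) + kc z X) ≤ 8 := by
    exact_mod_cast h6.trans hn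
  refine arith (a := a) (b := b) (c := c) (d := d) (x := x) (y := y) ?_ ?_ (by linarith)
    (by linarith) h5
  · by_contra hc
    push Not at hc
    exact h1 (e1.trans (lam_zero_iff.2 hc))
  · by_contra hc
    push Not at hc
    rw [lam_zero_iff.2 hc, mul_zero] at e2
    exact h2 e2

theorem cls_small (hz : ∀ i, ‖z i‖ = 1) {c κ : ℂ} (hv : vc z c ≠ 0)
    (hκ : vc z c ^ 6 = κ * (‖vc z c‖ : ℂ) ^ 6) :
    1 ≤ kc z c ∧ (kc z c ≤ 1 → c = κ) ∧ (kc z c ≤ 2 → c = κ ∨ c = -κ) := by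
  obtain ⟨z0, hz0, hc, x, y, e, k⟩ := repr_c hz hv
  have hl : lam x y ≠ 0 := by
    intro h
    rw [h, mul_zero] at e
    exact hv e
  have hnf : ((nf x y : ℤ) : ℂ) ≠ 0 := by
    intro h
    have h1 : nf x y = 0 := by exact_mod_cast h
    exact hl (lam_zero_iff.2 (nf_zero h1))
  have hnorm : (‖vc z c‖ : ℂ) ^ 6 = (nf x y : ℂ) ^ 3 := by
    have h1 : ‖vc z c‖ ^ 2 = nf x y := by
      rw [e, norm_mul, hz0, one_mul, lam_norm]
    have h2 : (‖vc z c‖ : ℂ) ^ 6 = ((‖vc z c‖ ^ 2 : ℝ) : ℂ) ^ 3 := by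
      push_cast
      ring
    rw [h2, h1]
    push_cast
    ring
  have h6 : vc z c ^ 6 = c * lam x y ^ 6 := by
    rw [e, mul_pow, hc]
  rw [hnorm, h6] at hκ
  have hpos : (nf x y : ℂ) ^ 3 ≠ 0 := pow_ne_zero 3 hnf
  have c1 : lam x y ^ 6 = (nf x y : ℂ) ^ 3 → c = κ := by
    intro h
    rw [h] at hκ
    exact mul_right_cancel₀ hpos hκ
  have c2 : lam x y ^ 6 = -(nf x y : ℂ) ^ 3 → c = -κ := by
    intro h
    rw [h] at hκ
    apply mul_right_cancel₀ hpos
    linear_combination -hκ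
  refine ⟨?_, ?_, ?_⟩
  · by_contra h
    have h0 : kc z c = 0 := by omega
    apply hv
    unfold vc
    have : (Finset.univ.filter fun i => z i ^ 6 = c) = ∅ := Finset.card_eq_zero.1 h0
    rw [this, Finset.sum_empty]
  · intro h
    refine c1 (lam_pow_pos (tiny (k.trans ?_)))
    exact_mod_cast h
  · intro h
    rcases small (x := x) (y := y) (k.trans (by exact_mod_cast h)) with h1 | h1
    · exact Or.inl (c1 (lam_pow_pos h1))
    · exact Or.inr (c2 (lam_pow_neg h1))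

private theorem par {v w : ℂ} (hv : v ≠ 0) (h : (conj v * w).im = 0) :
    w ^ 6 = (v ^ 6 / (‖v‖ : ℂ) ^ 6) * (‖w‖ : ℂ) ^ 6 := by
  have hn : (‖v‖ : ℂ) ≠ 0 := by
    have := norm_pos_iff.2 hv
    exact_mod_cast this.ne'
  have h1 : conj v * w = ((conj v * w).re : ℂ) := by
    apply Complex.ext
    · rw [Complex.ofReal_re]
    · rw [Complex.ofReal_im, h]
  have h2 : v * conj v = (‖v‖ : ℂ) ^ 2 := by
    rw [Complex.mul_conj, Complex.normSq_eq_norm_sq]
    push_cast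
    rfl
  have h3 : w * (‖v‖ : ℂ) ^ 2 = ((conj v * w).re : ℂ) * v := by
    rw [← h1, ← h2]
    ring
  have h4 : ‖w‖ * ‖v‖ ^ 2 = |(conj v * w).re| * ‖v‖ := by
    have := congrArg norm h3
    rw [norm_mul, norm_mul, norm_pow, Complex.norm_real, Complex.norm_real, norm_norm] at this
    exact this
  set r : ℝ := (conj v * w).re with hr
  have h5 : (‖w‖ : ℂ) ^ 6 * (‖v‖ : ℂ) ^ 12 = (r : ℂ) ^ 6 * (‖v‖ : ℂ) ^ 6 := by
    have h6 : (‖w‖ * ‖v‖ ^ 2) ^ 6 = (|r| * ‖v‖) ^ 6 := by rw [h4]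
    have h7 : |r| ^ 6 = r ^ 6 := by
      have : |r| ^ 6 = (|r| ^ 2) ^ 3 := by ring
      rw [this, sq_abs]
      ring
    rw [mul_pow, mul_pow, h7] at h6
    have h8 : ((‖w‖ ^ 6 * (‖v‖ ^ 2) ^ 6 : ℝ) : ℂ) = ((r ^ 6 * ‖v‖ ^ 6 : ℝ) : ℂ) := by rw [h6]
    push_cast at h8
    linear_combination h8
  have h9 : w ^ 6 * (‖v‖ : ℂ) ^ 12 = (r : ℂ) ^ 6 * v ^ 6 := by
    have h10 : (w * (‖v‖ : ℂ) ^ 2) ^ 6 = ((r : ℂ) * v) ^ 6 := by rw [h3]
    linear_combination h10
  have h12 : (‖v‖ : ℂ) ^ 12 ≠ 0 := pow_ne_zero _ hn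
  apply mul_right_cancel₀ h12
  rw [h9]
  have h13 : v ^ 6 / (‖v‖ : ℂ) ^ 6 * (‖w‖ : ℂ) ^ 6 * (‖v‖ : ℂ) ^ 12 =
      v ^ 6 / (‖v‖ : ℂ) ^ 6 * ((‖w‖ : ℂ) ^ 6 * (‖v‖ : ℂ) ^ 12) := by ring
  rw [h13, h5]
  field_simp

theorem col_no (hn : n ≤ 8) (hz : ∀ i, ‖z i‖ = 1) (h1 : vc z 1 ≠ 0) (h2 : vc z (-1) ≠ 0)
    {X Y : ℂ} (hX1 : X ≠ 1) (hX2 : X ≠ -1) (hX : vc z X ≠ 0) (hY1 : Y ≠ 1) (hY2 : Y ≠ -1)
    (hYX : Y ≠ X) (hY : vc z Y ≠ 0) (p2 : (conj (vc z 1) * vc z (-1)).im = 0)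
    (pX : (conj (vc z 1) * vc z X).im = 0) (pY : (conj (vc z 1) * vc z Y).im = 0) : False := by
  set κ : ℂ := vc z 1 ^ 6 / (‖vc z 1‖ : ℂ) ^ 6 with hκ
  have p1 : (conj (vc z 1) * vc z 1).im = 0 := by
    rw [mul_comm, Complex.mul_conj, Complex.ofReal_im]
  obtain ⟨a1, b1, c1⟩ := cls_small hz h1 (par h1 p1)
  obtain ⟨a2, b2, c2⟩ := cls_small hz h2 (par h1 p2)
  obtain ⟨a3, b3, c3⟩ := cls_small hz hX (par h1 pX)
  obtain ⟨a4, b4, c4⟩ := cls_small hz hY (par h1 pY)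
  rw [← hκ] at b1 b2 b3 b4 c1 c2 c3 c4
  have hne : (1 : ℂ) ≠ -1 := by norm_num
  have h6 := cards z {1, -1, X, Y}
  have h7 : (1 : ℂ) ∉ ({-1, X, Y} : Finset ℂ) := by
    simp only [Finset.mem_insert, Finset.mem_singleton, not_or]
    exact ⟨hne, hX1.symm, hY1.symm⟩
  have h8 : (-1 : ℂ) ∉ ({X, Y} : Finset ℂ) := by
    simp only [Finset.mem_insert, Finset.mem_singleton, not_or]
    exact ⟨hX2.symm, hY2.symm⟩
  have h9 : X ∉ ({Y} : Finset ℂ) := by
    rw [Finset.mem_singleton]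
    exact hYX.symm
  rw [Finset.sum_insert h7, Finset.sum_insert h8, Finset.sum_insert h9, Finset.sum_singleton] at h6
  have t : ∀ {c : ℂ} {k : ℕ}, 1 ≤ k → (k ≤ 1 → c = κ) → (k ≤ 2 → c = κ ∨ c = -κ) →
      (1 ≤ k ∧ c = κ) ∨ (2 ≤ k ∧ c = -κ) ∨ 3 ≤ k := by
    intro c k h h' h''
    by_cases g1 : k ≤ 1
    · exact Or.inl ⟨h, h' g1⟩
    · by_cases g2 : k ≤ 2
      · rcases h'' g2 with g | g
        · exact Or.inl ⟨h, g⟩
        · exact Or.inr (Or.inl ⟨by omega, g⟩)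
      · exact Or.inr (Or.inr (by omega))
  rcases t a1 b1 c1 with ⟨k1, e1⟩ | ⟨k1, e1⟩ | k1 <;>
  rcases t a2 b2 c2 with ⟨k2, e2⟩ | ⟨k2, e2⟩ | k2 <;>
  rcases t a3 b3 c3 with ⟨k3, e3⟩ | ⟨k3, e3⟩ | k3 <;>
  rcases t a4 b4 c4 with ⟨k4, e4⟩ | ⟨k4, e4⟩ | k4 <;>
  first
  | omega
  | exact hne (e1.trans e2.symm)
  | exact hX1 (e3.trans e1.symm)
  | exact hX2 (e3.trans e2.symm)
  | exact hY1 (e4.trans e1.symm)
  | exact hY2 (e4.trans e2.symm)
  | exact hYX (e4.trans e3.symm)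

/-- A function of the class with four values. -/
noncomputable def sel (X f1 f2 f3 f4 c : ℂ) : ℂ :=
  if c = 1 then f1 else if c = -1 then f2 else if c = X then f3 else f4

theorem sel_sum (z : Fin n → ℂ) {X : ℂ} (hX1 : X ≠ 1) (hX2 : X ≠ -1) (f1 f2 f3 f4 : ℂ) :
    ∑ i, sel X f1 f2 f3 f4 (z i ^ 6) * z i = f1 * vc z 1 + f2 * vc z (-1) + f3 * vc z X +
      f4 * (∑ i, z i - vc z 1 - vc z (-1) - vc z X) := by
  unfold vc
  rw [Finset.sum_filter, Finset.sum_filter, Finset.sum_filter, Finset.mul_sum, Finset.mul_sum,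
    Finset.mul_sum, ← Finset.sum_sub_distrib, ← Finset.sum_sub_distrib, ← Finset.sum_sub_distrib,
    Finset.mul_sum, ← Finset.sum_add_distrib, ← Finset.sum_add_distrib, ← Finset.sum_add_distrib]
  refine Finset.sum_congr rfl fun i _ => ?_
  unfold sel
  have hne : ¬ (1 : ℂ) = -1 := by norm_num
  by_cases h1 : z i ^ 6 = 1
  · rw [h1, if_pos rfl, if_pos rfl, if_neg hne, if_neg hX1.symm]
    ring
  · by_cases h2 : z i ^ 6 = -1
    · rw [h2, if_neg (Ne.symm hne), if_pos rfl, if_neg (Ne.symm hne), if_pos rfl, if_neg hX2.symm]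
      ring
    · by_cases h3 : z i ^ 6 = X
      · rw [h3, if_neg hX1, if_neg hX2, if_pos rfl, if_neg hX1, if_neg hX2, if_pos rfl]
        ring
      · rw [if_neg h1, if_neg h2, if_neg h3, if_neg h1, if_neg h2, if_neg h3]
        ring

theorem sel_cont {X : ℂ} {f1 f2 f3 f4 : ℝ → ℂ} {s : Set ℝ} (h1 : ContinuousOn f1 s)
    (h2 : ContinuousOn f2 s) (h3 : ContinuousOn f3 s) (h4 : ContinuousOn f4 s) (c : ℂ) :
    ContinuousOn (fun t => sel X (f1 t) (f2 t) (f3 t) (f4 t) c) s := by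
  unfold sel
  split_ifs
  · exact h1
  · exact h2
  · exact h3
  · exact h4

theorem sel_prop {X f1 f2 f3 f4 : ℂ} {p : ℂ → Prop} (h1 : p f1) (h2 : p f2) (h3 : p f3)
    (h4 : p f4) (c : ℂ) : p (sel X f1 f2 f3 f4 c) := by
  unfold sel
  split_ifs
  · exact h1
  · exact h2
  · exact h3
  · exact h4

theorem poly (hn : n ≤ 8) (hz : ∀ i, ‖z i‖ = 1) (hs : ∑ i, z i = 0) :
    ∃ F : ℝ → ℂ → ℂ, (∀ c, ContinuousOn (fun t => F t c) (Icc 0 1)) ∧ (∀ c, F 0 c = 1) ∧
      (∀ t ∈ Icc (0 : ℝ) 1, ∀ c, ‖F t c‖ = 1) ∧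
      (∀ t ∈ Icc (0 : ℝ) 1, ∑ i, F t (z i ^ 6) * z i = 0) ∧
      ∃ θ : ℝ, Real.sin θ ≠ 0 ∧ F 1 (-1) = Complex.exp (θ * Complex.I) * F 1 1 := by
  have hne : ¬ (-1 : ℂ) = 1 := by norm_num
  have hs1 : Real.sin 1 ≠ 0 := (Real.sin_pos_of_pos_of_lt_pi one_pos (by
    have := Real.pi_gt_three
    linarith)).ne'
  have h01 : (0 : ℂ) ≠ 1 := zero_ne_one
  have h02 : (0 : ℂ) ≠ -1 := by norm_num
  by_cases h2 : vc z (-1) = 0
  · refine ⟨fun t => sel 0 1 (Complex.exp (t * Complex.I)) 1 1, ?_, ?_, ?_, ?_, 1, hs1, ?_⟩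
    · intro c
      exact sel_cont continuousOn_const (by fun_prop) continuousOn_const continuousOn_const c
    · intro c
      refine sel_prop (p := fun x => x = 1) rfl ?_ rfl rfl c
      rw [Complex.ofReal_zero, zero_mul, Complex.exp_zero]
    · intro t _ c
      exact sel_prop (p := fun x => ‖x‖ = 1) norm_one (Complex.norm_exp_ofReal_mul_I t) norm_one
        norm_one c
    · intro t _
      rw [sel_sum z h01 h02, h2, hs]
      ring
    · change sel 0 1 (Complex.exp ((1 : ℝ) * Complex.I)) 1 1 (-1) =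
        Complex.exp ((1 : ℝ) * Complex.I) * sel 0 1 (Complex.exp ((1 : ℝ) * Complex.I)) 1 1 1
      unfold sel
      rw [if_neg hne, if_pos rfl, if_pos rfl, mul_one]
  by_cases h1 : vc z 1 = 0
  · refine ⟨fun t => sel 0 (Complex.exp ((-t : ℝ) * Complex.I)) 1 1 1, ?_, ?_, ?_, ?_, 1, hs1, ?_⟩
    · intro c
      exact sel_cont (by fun_prop) continuousOn_const continuousOn_const continuousOn_const c
    · intro c
      refine sel_prop (p := fun x => x = 1) ?_ rfl rfl rfl c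
      rw [neg_zero, Complex.ofReal_zero, zero_mul, Complex.exp_zero]
    · intro t _ c
      exact sel_prop (p := fun x => ‖x‖ = 1) (Complex.norm_exp_ofReal_mul_I _) norm_one norm_one
        norm_one c
    · intro t _
      rw [sel_sum z h01 h02, h1, hs]
      ring
    · change sel 0 (Complex.exp ((-1 : ℝ) * Complex.I)) 1 1 1 (-1) =
        Complex.exp ((1 : ℝ) * Complex.I) * sel 0 (Complex.exp ((-1 : ℝ) * Complex.I)) 1 1 1 1
      unfold sel
      rw [if_neg hne, if_pos rfl, if_pos rfl, ← Complex.exp_add]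
      have : ((1 : ℝ) : ℂ) * Complex.I + ((-1 : ℝ) : ℂ) * Complex.I = 0 := by
        push_cast
        ring
      rw [this, Complex.exp_zero]
  -- both classes occur
  have hR := vne z h1
  have hS2 : ∑ c ∈ ({1, -1} : Finset ℂ), vc z c = vc z 1 + vc z (-1) := by
    rw [Finset.sum_insert (by rw [Finset.mem_singleton]; exact Ne.symm hne), Finset.sum_singleton]
  -- the main step
  have main : ∀ X : ℂ, X ≠ 1 → X ≠ -1 → vc z X ≠ 0 →
      ((conj (vc z X) * -(vc z 1 + vc z (-1) + vc z X)).im ≠ 0 ∨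
        (conj (vc z 1) * vc z (-1)).im ≠ 0) →
      ∃ F : ℝ → ℂ → ℂ, (∀ c, ContinuousOn (fun t => F t c) (Icc 0 1)) ∧ (∀ c, F 0 c = 1) ∧
      (∀ t ∈ Icc (0 : ℝ) 1, ∀ c, ‖F t c‖ = 1) ∧
      (∀ t ∈ Icc (0 : ℝ) 1, ∑ i, F t (z i ^ 6) * z i = 0) ∧
      ∃ θ : ℝ, Real.sin θ ≠ 0 ∧ F 1 (-1) = Complex.exp (θ * Complex.I) * F 1 1 := by
    intro X hX1 hX2 hX h
    have hP : -(vc z 1 + vc z (-1) + vc z X) ≠ 0 := by
      intro h3
      exact tri_no hn hz h1 h2 hX1 hX2 hX (by linear_combination -h3)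
    obtain ⟨θ, hθ, α, β, cα, cβ, α0, β0, α1, β1, hab⟩ := move (v := vc z 1) (w := vc z (-1)) hX hP
      (by ring) hR h
    refine ⟨fun t => sel X 1 (Complex.exp ((θ * t : ℝ) * Complex.I)) (α t) (β t), ?_, ?_, ?_, ?_,
      θ, hθ, ?_⟩
    · intro c
      exact sel_cont continuousOn_const (by fun_prop) cα cβ c
    · intro c
      refine sel_prop (p := fun x => x = 1) rfl ?_ α0 β0 c
      rw [mul_zero, Complex.ofReal_zero, zero_mul, Complex.exp_zero]
    · intro t ht c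
      exact sel_prop (p := fun x => ‖x‖ = 1) norm_one (Complex.norm_exp_ofReal_mul_I _) (α1 t ht)
        (β1 t ht) c
    · intro t ht
      rw [sel_sum z hX1 hX2, hs]
      have h3 := hab t ht
      linear_combination h3
    · change sel X 1 (Complex.exp ((θ * 1 : ℝ) * Complex.I)) (α 1) (β 1) (-1) =
        Complex.exp (θ * Complex.I) *
          sel X 1 (Complex.exp ((θ * 1 : ℝ) * Complex.I)) (α 1) (β 1) 1
      unfold sel
      rw [if_neg hne, if_pos rfl, if_pos rfl, mul_one, mul_one]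
  obtain ⟨X, hXS, hX⟩ := exists_else hs {1, -1} (by rw [hS2]; exact hR)
  rw [Finset.mem_insert, Finset.mem_singleton, not_or] at hXS
  obtain ⟨hX1, hX2⟩ := hXS
  by_cases c1 : (conj (vc z X) * -(vc z 1 + vc z (-1) + vc z X)).im ≠ 0 ∨
        (conj (vc z 1) * vc z (-1)).im ≠ 0
  · exact main X hX1 hX2 hX c1
  push Not at c1
  obtain ⟨c1, c2⟩ := c1
  have hP : vc z 1 + vc z (-1) + vc z X ≠ 0 := fun h3 =>
    tri_no hn hz h1 h2 hX1 hX2 hX h3
  have h7 : (1 : ℂ) ∉ ({-1, X} : Finset ℂ) := by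
    rw [Finset.mem_insert, Finset.mem_singleton, not_or]
    exact ⟨Ne.symm hne, Ne.symm hX1⟩
  have h8 : (-1 : ℂ) ∉ ({X} : Finset ℂ) := by
    rw [Finset.mem_singleton]
    exact Ne.symm hX2
  obtain ⟨Y, hYS, hY⟩ := exists_else hs {1, -1, X} (by
    rw [Finset.sum_insert h7, Finset.sum_insert h8, Finset.sum_singleton, ← add_assoc]
    exact hP)
  simp only [Finset.mem_insert, Finset.mem_singleton, not_or] at hYS
  obtain ⟨hY1, hY2, hYX⟩ := hYS
  by_cases c3 : (conj (vc z Y) * -(vc z 1 + vc z (-1) + vc z Y)).im ≠ 0 ∨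
        (conj (vc z 1) * vc z (-1)).im ≠ 0
  · exact main Y hY1 hY2 hY c3
  push Not at c3
  -- everything is parallel
  exfalso
  have aux : ∀ x : ℂ, (conj x * -(vc z 1 + vc z (-1) + x)).im = 0 →
      (conj (vc z 1) * x).im = 0 := by
    intro x hx
    -- `v₂` is a real multiple of `v₁`
    set v := vc z 1 with hv
    set w := vc z (-1) with hw
    simp only [Complex.mul_im, Complex.conj_re, Complex.conj_im, Complex.neg_im, Complex.neg_re,
      Complex.add_im, Complex.add_re] at hx c2 ⊢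
    have hR' : v.re + w.re ≠ 0 ∨ v.im + w.im ≠ 0 := by
      by_contra hc
      push Not at hc
      apply hR
      apply Complex.ext
      · rw [Complex.add_re]; exact hc.1
      · rw [Complex.add_im]; exact hc.2
    -- `x` is parallel to `v + w`, `v` is parallel to `v + w`
    have e1 : x.re * (v.im + w.im) - x.im * (v.re + w.re) = 0 := by linear_combination -hx
    have e2 : v.re * (v.im + w.im) - v.im * (v.re + w.re) = 0 := by linear_combination c2
    rcases hR' with h3 | h3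
    · apply mul_left_cancel₀ h3
      rw [mul_zero]
      linear_combination x.re * e2 - v.re * e1
    · apply mul_left_cancel₀ h3
      rw [mul_zero]
      linear_combination x.im * e2 - v.im * e1
  exact col_no hn hz h1 h2 hX1 hX2 hX hY1 hY2 hYX hY c2 (aux _ c1) (aux _ c3.1)

end Pool.Agent.Lib.MP_dd2281_co
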