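import Mathlib
import Pool.Agent.Lib.MP_dd2281_co.One
import Pool.Agent.Lib.MP_dd2281_co.Poly

/-!
# MP_dd2281_co: one long closed walk is not enough
-/

set_option autoImplicit false

namespace Pool.Agent.Lib.MP_dd2281_co

open Set

variable {V : Type} {G : SimpleGraph V}

theorem two (p : V → ℂ) (hp : ∀ u v, G.Adj u v → ‖p v - p u‖ = 1) {A B C : V}
    (hAB : G.Adj A B) (hBC : G.Adj B C) (ε : ℝ) (hε : ε = 1 ∨ ε = -1)
    (hC : p C - p B = ε * Complex.I * (p B - p A)) {x : V} (γ : G.Walk x x) (hγ : γ.length ≤ 8)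
    (hS : ∀ g : V → V → ℂ, (∀ u v, g v u = -g u v) →
      (∀ v (W : G.Walk v v), W.length ≤ 4 → circ g W = 0) → circ g γ = 0 →
      ∀ W : G.Walk A A, circ g W = 0) :
    ∃ m : ℝ → V → ℂ, ((∀ v, ContinuousOn (fun t => m t v) (Icc 0 1)) ∧ m 0 = p ∧
      ∀ t ∈ Icc (0 : ℝ) 1, ∀ u v, G.Adj u v → ‖m t v - m t u‖ = 1) ∧
      ‖m 1 A - m 1 C‖ ≠ ‖p A - p C‖ := by
  set e : ℂ := p B - p A with he
  have hen : ‖e‖ = 1 := hp A B hAB
  have he0 : e ≠ 0 := by
    intro h
    rw [h, norm_zero] at hen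
    exact zero_ne_one hen
  have hME : Even 6 := ⟨3, rfl⟩
  have hM3 : 3 ∣ 6 := ⟨2, rfl⟩
  -- the polygon
  have hlen : γ.darts.length ≤ 8 := by
    rw [SimpleGraph.Walk.length_darts]
    exact hγ
  let z : Fin γ.darts.length → ℂ := fun i => (p γ.darts[i.1].snd - p γ.darts[i.1].fst) / e
  have hz : ∀ i, ‖z i‖ = 1 := by
    intro i
    change ‖(p γ.darts[i.1].snd - p γ.darts[i.1].fst) / e‖ = 1
    rw [norm_div, hen, div_one]
    exact hp _ _ γ.darts[i.1].adj
  have hsum : ∀ F : ℂ → ℂ, ∑ i, F (z i ^ 6) * z i = circ (rot p e 6 F) γ / e := by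
    intro F
    unfold circ rot
    rw [← Fin.sum_univ_fun_getElem, Finset.sum_div]
    refine Finset.sum_congr rfl fun i _ => ?_
    change F (((p γ.darts[i.1].snd - p γ.darts[i.1].fst) / e) ^ 6) *
      ((p γ.darts[i.1].snd - p γ.darts[i.1].fst) / e) = _
    rw [mul_div_assoc]
  have hs : ∑ i, z i = 0 := by
    have h1 := hsum fun _ => 1
    simp only [one_mul] at h1
    rw [h1]
    have h2 : circ (rot p e 6 fun _ => 1) γ = circ (fun a b => p b - p a) γ :=
      circ_congr _ fun a b _ => by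
        unfold rot
        rw [one_mul]
    rw [h2, circ_pot, sub_self, zero_div]
  obtain ⟨F, hF1, hF2, hF3, hF4, θ, hθ, hF5⟩ := poly hlen hz hs
  obtain ⟨q, hq, hq'⟩ := flex (G := G) p hp (fun t => rot p e 6 (if t ∈ Icc (0 : ℝ) 1 then F t else F 0))
    (fun t u v => rot_anti p e hME _ u v)
    (fun u v => by
      change (if (0 : ℝ) ∈ Icc (0 : ℝ) 1 then F 0 else F 0) _ * (p v - p u) = _
      rw [ite_self, hF2, one_mul])
    (fun t ht u v huv => by
      change ‖(if t ∈ Icc (0 : ℝ) 1 then F t else F 0) _ * (p v - p u)‖ = 1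
      rw [if_pos ht, norm_mul, hF3 t ht, hp u v huv, one_mul])
    (fun u v => by
      change ContinuousOn (fun t => (if t ∈ Icc (0 : ℝ) 1 then F t else F 0) _ * (p v - p u)) _
      refine ContinuousOn.mul ?_ continuousOn_const
      refine (hF1 (((p v - p u) / e) ^ 6)).congr fun t ht => ?_
      rw [if_pos ht])
    A (fun t ht => by
      rw [if_pos ht]
      refine hS (rot p e 6 (F t)) (rot_anti p e hME (F t)) ?_ ?_
      · intro v W hW
        exact rot_short p hp e hME hM3 (F t) W hW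
      · have h1 := hsum (F t)
        rw [hF4 t ht] at h1
        have h2 := (div_eq_zero_iff.1 h1.symm).resolve_right he0
        exact h2)
  refine ⟨q, hq, ?_⟩
  have h1 := hq' 1 ⟨zero_le_one, le_refl _⟩ C
    (SimpleGraph.Walk.cons hAB (SimpleGraph.Walk.cons hBC SimpleGraph.Walk.nil))
  rw [circ_cons, circ_cons, circ_nil, add_zero, if_pos ⟨zero_le_one, le_refl _⟩] at h1
  have h2 : rot p e 6 (F 1) A B = F 1 1 * e := by
    unfold rot
    rw [← he, div_self he0, one_pow]
  have h3 : rot p e 6 (F 1) B C = F 1 (-1) * (ε * Complex.I * e) := by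
    unfold rot
    rw [hC, mul_div_assoc, div_self he0, mul_one]
    have h4 : (ε * Complex.I) ^ 6 = (-1 : ℂ) := by
      have h5 : (ε : ℂ) ^ 2 = 1 := by
        rcases hε with rfl | rfl <;> norm_num
      have h6 : (ε * Complex.I) ^ 6 = ((ε : ℂ) ^ 2) ^ 3 * (Complex.I ^ 2) ^ 3 := by ring
      rw [h6, h5, Complex.I_sq]
      norm_num
    rw [h4]
  rw [h2, h3, hF5] at h1
  have h5 : ‖q 1 A - q 1 C‖ ^ 2 = 2 - 2 * ε * Real.sin (θ - 0) := by
    rw [← diag_sq ε hε 0 θ, ← norm_neg, neg_sub, h1]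
    have e1 : F 1 1 * e + Complex.exp (θ * Complex.I) * F 1 1 * (ε * Complex.I * e) =
      F 1 1 * e * (Complex.exp ((0 : ℝ) * Complex.I) + Complex.exp (θ * Complex.I) *
        (ε * Complex.I)) := by
      rw [Complex.ofReal_zero, zero_mul, Complex.exp_zero]
      ring
    rw [e1, norm_mul, norm_mul, hF3 1 ⟨zero_le_one, le_refl _⟩, hen, one_mul, one_mul,
      Complex.normSq_eq_norm_sq]
  have h6 : ‖p A - p C‖ ^ 2 = 2 := by
    have e1 : p A - p C = -(e * (Complex.exp ((0 : ℝ) * Complex.I) +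
        Complex.exp ((0 : ℝ) * Complex.I) * (ε * Complex.I))) := by
      rw [Complex.ofReal_zero, zero_mul, Complex.exp_zero]
      linear_combination (-1 : ℂ) * hC - he
    rw [e1, norm_neg, norm_mul, hen, one_mul, ← Complex.normSq_eq_norm_sq, diag_sq ε hε 0 0,
      sub_self, Real.sin_zero]
    ring
  intro h7
  rw [h7, h6, sub_zero] at h5
  apply hθ
  rcases hε with rfl | rfl <;> linarith

end Pool.Agent.Lib.MP_dd2281_co
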